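import Pool.Agent.Lib.MP_d6ddbd_nt.X.Stmt
import Pool.Agent.Lib.MP_9177b7_ag.CM.Lat
import Pool.Agent.Lib.MP_9177b7_ag.CM.Norm

/-!
The multiplier systems of the sixth and eighth powers of the eta function.
-/

set_option autoImplicit false

open UpperHalfPlane
open scoped MatrixGroups
open Pool.Agent.Lib.MP_9177b7_ag.CM.Lat (denom_ne)
open Pool.Agent.Lib.MP_9177b7_ag.CM.Norm (coe_up)
open Pool.Agent.Lib.MP_d6ddbd_nt.K

noncomputable section

namespace Pool.Agent.Lib.MP_d6ddbd_nt.X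

namespace Eta

/-- The automorphy factor. -/
def jj (g : SL(2, ℤ)) (τ : ℍ) : ℂ := ((g 1 0 : ℤ) : ℂ) * τ + (g 1 1 : ℤ)

theorem mul_ent (s g : SL(2, ℤ)) (i j : Fin 2) :
    (s * g) i j = s i 0 * g 0 j + s i 1 * g 1 j := by
  simp [Matrix.mul_apply, Fin.sum_univ_two]

theorem jj_mul (s g : SL(2, ℤ)) (τ : ℍ) : jj (s * g) τ = jj s (g • τ) * jj g τ := by
  have := denom_ne g τ
  simp only [jj, mul_ent, MP_9177b7_ag.CM.Lat.coe_smul]
  push_cast
  field_simp
  ring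

theorem det_ent (g : SL(2, ℤ)) : g 0 0 * g 1 1 - g 0 1 * g 1 0 = 1 := by
  have h2 := g.det_coe
  rwa [Matrix.det_fin_two] at h2

/-- A function of the residues of the entries. -/
def kk {N : ℕ} (K : ZMod N → ZMod N → ZMod N → ZMod N → ZMod N) (g : SL(2, ℤ)) : ZMod N :=
  K (g 0 0 : ℤ) (g 0 1 : ℤ) (g 1 0 : ℤ) (g 1 1 : ℤ)

theorem law {N : ℕ} [NeZero N] (K : ZMod N → ZMod N → ZMod N → ZMod N → ZMod N) (kS : ZMod N)
    (h1 : K 1 0 0 1 = 0)
    (hKS : ∀ a b c d, a * d - b * c = 1 → K (-c) (-d) a b = kS + K a b c d)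
    (hKT : ∀ a b c d, a * d - b * c = 1 → K (a + c) (b + d) c d = 1 + K a b c d)
    (F : ℍ → ℂ) (w : ℕ)
    (hS : ∀ τ : ℍ, F (ModularGroup.S • τ) = ZMod.stdAddChar kS * (τ : ℂ) ^ w * F τ)
    (hT : ∀ τ : ℍ, F (ModularGroup.T • τ) = ZMod.stdAddChar (1 : ZMod N) * F τ)
    (g : SL(2, ℤ)) : ∀ τ : ℍ, F (g • τ) = ZMod.stdAddChar (kk K g) * jj g τ ^ w * F τ := by
  have hd : ∀ g : SL(2, ℤ), ((g 0 0 : ℤ) : ZMod N) * (g 1 1 : ℤ) - (g 0 1 : ℤ) * (g 1 0 : ℤ) = 1 :=
    fun g => by exact_mod_cast congrArg (Int.cast : ℤ → ZMod N) (det_ent g)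
  have step : ∀ s ∈ ({ModularGroup.S, ModularGroup.T} : Set SL(2, ℤ)), ∃ k : ZMod N,
      (∀ τ : ℍ, F (s • τ) = ZMod.stdAddChar k * jj s τ ^ w * F τ) ∧
      ∀ g, kk K (s * g) = k + kk K g := by
    rintro s (rfl | rfl)
    · refine ⟨kS, fun τ => by rw [hS]; simp [jj, ModularGroup.S], fun g => ?_⟩
      rw [kk, kk, ← hKS _ _ _ _ (hd g)]
      simp only [mul_ent]
      simp [ModularGroup.S]
    · refine ⟨1, fun τ => by rw [hT]; simp [jj, ModularGroup.T], fun g => ?_⟩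
      rw [kk, kk, ← hKT _ _ _ _ (hd g)]
      simp only [mul_ent]
      simp [ModularGroup.T]
  have : g ∈ Subgroup.closure {ModularGroup.S, ModularGroup.T} := by
    simp [SpecialLinearGroup.SL2Z_generators]
  induction this using Subgroup.closure_induction_left with
  | one => intro τ; simp [kk, jj, h1]
  | mul_left s hs g _ ih =>
    intro τ
    obtain ⟨k, e1, e2⟩ := step s hs
    rw [mul_smul, e1, ih, e2, jj_mul, AddChar.map_add_eq_mul]
    ring
  | inv_mul_cancel s hs g _ ih =>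
    intro τ
    obtain ⟨k, e1, e2⟩ := step s hs
    have e3 := ih τ
    have e4 : g = s * (s⁻¹ * g) := by simp
    generalize s⁻¹ * g = u at e4 ⊢
    subst e4
    rw [mul_smul, e1, e2, jj_mul, AddChar.map_add_eq_mul] at e3
    have n1 : ZMod.stdAddChar k ≠ 0 := by
      rw [ZMod.stdAddChar_apply]; exact Circle.coe_ne_zero _
    refine mul_left_cancel₀ (mul_ne_zero n1 (pow_ne_zero w (denom_ne s (u • τ)))) ?_
    rw [← jj, e3]
    ring

theorem eta_T (τ : ℍ) : ModularForm.eta (ModularGroup.T • τ : ℍ) =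
    Complex.exp (2 * Real.pi * Complex.I / 24) * ModularForm.eta τ := by
  have e : ((ModularGroup.T • τ : ℍ) : ℂ) = τ + 1 := by
    rw [modular_T_smul, coe_vadd]; simp [add_comm]
  have e2 : ∀ n, ModularForm.eta_q n ((τ : ℂ) + 1) = ModularForm.eta_q n τ := fun n => by
    rw [ModularForm.eta_q_eq_pow, ModularForm.eta_q_eq_pow, mul_add, mul_one, Complex.exp_add,
      Complex.exp_two_pi_mul_I, mul_one]
  simp only [e, ModularForm.eta, e2, Function.Periodic.qParam]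
  rw [← mul_assoc, ← Complex.exp_add]
  congr 2
  push_cast
  ring

theorem eta_S (τ : ℍ) : ModularForm.eta (ModularGroup.S • τ : ℍ) ^ 2 =
    -Complex.I * τ * ModularForm.eta τ ^ 2 := by
  have e : ((ModularGroup.S • τ : ℍ) : ℂ) = -1 / τ := by
    rw [modular_S_smul]; simp [neg_div, inv_neg]
  have he : ModularForm.eta (-1 / (τ : ℂ)) =
      (Complex.sqrt Complex.I)⁻¹ * (Complex.sqrt τ * ModularForm.eta τ) := by
    simpa using ModularForm.eta_comp_eq_csqrt_I_inv τ.2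
  have sq : ∀ z : ℂ, Complex.sqrt z ^ 2 = z := fun z => by
    simp [Complex.sqrt]
  rw [e, he, mul_pow, mul_pow, inv_pow, sq, sq, Complex.inv_I, mul_assoc]

theorem std_one (N : ℕ) [NeZero N] :
    ZMod.stdAddChar (1 : ZMod N) = Complex.exp (2 * Real.pi * Complex.I / N) := by
  simpa using ZMod.stdAddChar_coe (N := N) 1

/-- The exponent of the multiplier of the sixth power. -/
def K4 (a b c d : ZMod 4) : ZMod 4 :=
  (a + d) * c - b * d * (c ^ 2 - 1) + if 2 * c = 0 then 3 * d - 3 - 3 * c * d else -3 * c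

/-- The exponent of the multiplier of the eighth power. -/
def K3 (a b c d : ZMod 3) : ZMod 3 := (a + d) * c - b * d * (c ^ 2 - 1)

theorem law6 (g : SL(2, ℤ)) (τ : ℍ) : ModularForm.eta (g • τ : ℍ) ^ 6 =
    ZMod.stdAddChar (kk K4 g) * jj g τ ^ 3 * ModularForm.eta τ ^ 6 := by
  refine law K4 1 (by decide) (by decide) (by decide) (fun τ => ModularForm.eta τ ^ 6) 3
    (fun τ => ?_) (fun τ => ?_) g τ
  · have e : Complex.exp (2 * Real.pi * Complex.I / (4 : ℕ)) = Complex.I := by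
      refine Eq.trans ?_ Complex.exp_pi_div_two_mul_I; congr 1; push_cast; ring
    rw [std_one, e, show 6 = 2 * 3 from rfl, pow_mul, eta_S]
    linear_combination -Complex.I * (τ : ℂ) ^ 3 * ModularForm.eta τ ^ 6 * Complex.I_sq
  · simp only [eta_T, std_one, mul_pow, ← Complex.exp_nat_mul]
    congr 2
    push_cast
    ring

theorem law8 (g : SL(2, ℤ)) (τ : ℍ) : ModularForm.eta (g • τ : ℍ) ^ 8 =
    ZMod.stdAddChar (kk K3 g) * jj g τ ^ 4 * ModularForm.eta τ ^ 8 := by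
  refine law K3 0 (by decide) (by decide) (by decide) (fun τ => ModularForm.eta τ ^ 8) 4
    (fun τ => ?_) (fun τ => ?_) g τ
  · rw [AddChar.map_zero_eq_one, show 8 = 2 * 4 from rfl, pow_mul, eta_S]
    linear_combination (τ : ℂ) ^ 4 * ModularForm.eta τ ^ 8 * Complex.I_pow_four
  · simp only [eta_T, std_one, mul_pow, ← Complex.exp_nat_mul]
    congr 2
    push_cast
    ring

theorem K3_neg : ∀ a b c d : ZMod 3, K3 a (-b) (-c) d + K3 a b c d = 0 := by decide

theorem four_mul : ∀ k : ZMod 4, k + k + k + k = 0 := by decide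

end Eta

open Eta in
theorem etaLaw : EtaStmt := by
  intro γ hγ τ
  obtain ⟨c, hc⟩ : (17 : ℤ) ∣ γ 1 0 := (ZMod.intCast_zmod_eq_zero_iff_dvd _ 17).1 hγ
  have hd := det_ent γ
  let δ : SL(2, ℤ) := ⟨!![γ 0 0, 17 * γ 0 1; c, γ 1 1], by
    rw [Matrix.det_fin_two_of]; rw [hc] at hd; linear_combination hd⟩
  have d00 : δ 0 0 = γ 0 0 := rfl
  have d01 : δ 0 1 = 17 * γ 0 1 := rfl
  have d10 : δ 1 0 = c := rfl
  have d11 : δ 1 1 = γ 1 1 := rfl
  have hu : ((up τ : ℍ) : ℂ) = 17 * τ := by exact_mod_cast coe_up (l := 17) (by norm_num) τ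
  have hj : jj δ (up τ) = jj γ τ := by
    simp only [jj, d10, d11, hu, hc]; push_cast; ring
  have hs : 17 * ((γ • τ : ℍ) : ℂ) = (δ • up τ : ℍ) := by
    rw [MP_9177b7_ag.CM.Lat.coe_smul, MP_9177b7_ag.CM.Lat.coe_smul, d00, d01, d10, d11, hu, hc]
    push_cast
    ring
  have h4 : kk K4 δ = kk K4 γ := by
    have : (17 : ZMod 4) = 1 := by decide
    simp only [kk, d00, d01, d10, d11, hc, Int.cast_mul, Int.cast_ofNat, this, one_mul]
  have h3 : kk K3 δ + kk K3 γ = 0 := by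
    have : (17 : ZMod 3) = -1 := by decide
    simp only [kk, d00, d01, d10, d11, hc, Int.cast_mul, Int.cast_ofNat, this, neg_mul, one_mul]
    simpa using K3_neg (γ 0 0 : ℤ) (γ 0 1 : ℤ) (-c) (γ 1 1 : ℤ)
  have a6 := law6 γ τ
  have b6 := law6 δ (up τ)
  have a8 := law8 γ τ
  have b8 := law8 δ (up τ)
  rw [hj, h4, hu] at b6
  rw [hj, hu] at b8
  have e4 : ZMod.stdAddChar (kk K4 γ) ^ 4 = 1 := by
    have := congrArg (ZMod.stdAddChar (N := 4)) (four_mul (kk K4 γ))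
    simp only [AddChar.map_add_eq_mul, AddChar.map_zero_eq_one] at this
    linear_combination this
  have e3 : ZMod.stdAddChar (kk K3 δ) * ZMod.stdAddChar (kk K3 γ) = 1 := by
    rw [← AddChar.map_add_eq_mul, h3, AddChar.map_zero_eq_one]
  have n4 : ZMod.stdAddChar (kk K4 γ) ≠ 0 := by
    rw [ZMod.stdAddChar_apply]; exact Circle.coe_ne_zero _
  have nj : jj γ τ ≠ 0 := denom_ne γ τ
  have n1 : ModularForm.eta τ ≠ 0 := ModularForm.eta_ne_zero τ.2
  have n2 : ModularForm.eta (17 * (τ : ℂ)) ≠ 0 := hu ▸ ModularForm.eta_ne_zero (up τ).2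
  refine ⟨?_, ?_⟩
  · rw [tf, tf, hs, div_pow, div_pow, a6, b6,
      mul_div_mul_left _ _ (mul_ne_zero n4 (pow_ne_zero _ nj))]
  · rw [Hh, Hh, hs, ← jj]
    generalize ModularForm.eta (γ • τ : ℍ) = A at *
    generalize ModularForm.eta (δ • up τ : ℍ) = B at *
    generalize ModularForm.eta (17 * (τ : ℂ)) = Y at *
    generalize ModularForm.eta τ = X at *
    have p8 : (A * B) ^ 8 = jj γ τ ^ 8 * (X * Y) ^ 8 := by
      rw [mul_pow, a8, b8]
      linear_combination jj γ τ ^ 8 * (X * Y) ^ 8 * e3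
    have p12 : (A * B) ^ 12 = jj γ τ ^ 12 * (X * Y) ^ 12 := by
      rw [show (A * B) ^ 12 = (A ^ 6 * B ^ 6) ^ 2 by ring, a6, b6]
      linear_combination jj γ τ ^ 12 * (X * Y) ^ 12 * e4
    refine mul_left_cancel₀ (mul_ne_zero (pow_ne_zero 8 nj) (pow_ne_zero 8 (mul_ne_zero n1 n2))) ?_
    linear_combination p12 - (A * B) ^ 4 * p8

end Pool.Agent.Lib.MP_d6ddbd_nt.X
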