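import Mathlib
import Pool.Agent.Lib.MP_9177b7_ag.CM.Defs

/-!
Modular functions on `X₀(17)` built from `E₂`, `E₄` and the Dedekind eta function.
-/

set_option autoImplicit false

open UpperHalfPlane
open scoped MatrixGroups

noncomputable section

namespace Pool.Agent.Lib.MP_d6ddbd_nt.X

/-- The point `17 τ`. -/
abbrev up (τ : ℍ) : ℍ := Pool.Agent.Lib.MP_9177b7_ag.CM.up 17 τ

/-- The Fricke involution `τ ↦ -1 / (17 τ)`. -/
def ww (τ : ℍ) : ℍ := ModularGroup.S • up τ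

/-- The eta quotient with divisor `4 (0) - 4 (∞)`. -/
def tf (τ : ℍ) : ℂ := (ModularForm.eta τ / ModularForm.eta (17 * (τ : ℂ))) ^ 6

/-- The Eisenstein series of weight two and level `17`. -/
def e2 (τ : ℍ) : ℂ := 17 * EisensteinSeries.E2 (up τ) - EisensteinSeries.E2 τ

/-- The eta product of weight four. -/
def Hh (τ : ℍ) : ℂ := (ModularForm.eta τ * ModularForm.eta (17 * (τ : ℂ))) ^ 4

def aA (τ : ℍ) : ℂ := e2 τ ^ 2 / Hh τ

def aB (τ : ℍ) : ℂ := (ModularForm.E₄ τ + 289 * ModularForm.E₄ (up τ)) / Hh τ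

def aC (τ : ℍ) : ℂ := (ModularForm.E₄ τ - 289 * ModularForm.E₄ (up τ)) / Hh τ

def aQ (τ : ℍ) : ℂ := (145 * aA τ - 128 * aB τ) / 80640

/-- The Hauptmodul `q⁻¹ + 7 q + 14 q ^ 2 + ⋯` of the Fricke group of level `17`. -/
def hm (τ : ℍ) : ℂ := 64 / 2601 *
  (aQ τ ^ 2 - (tf τ + 4913 / tf τ) - 35 / 512 * aA τ + 6081 / 112 * aQ τ - 324001 / 1568)

/-- The function `q⁻² + q⁻¹ - 6 - ⋯`, which changes sign under the Fricke involution. -/
def an (τ : ℍ) : ℂ := 36 / 1003 *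
  (tf τ - 4913 / tf τ + hm τ * aC τ / 288 - 55 / 1728 * aC τ)

/-- The function `q⁻² + q⁻¹ + 1 + q + ⋯`, regular at the cusp `0`. -/
def xf (τ : ℍ) : ℂ := (hm τ ^ 2 + an τ + hm τ) / 2 - 3

/-- Representatives of the cosets of `Γ₀(17)`. -/
def rep : Option (ZMod 17) → SL(2, ℤ)
  | none => 1
  | some i => ModularGroup.S * ModularGroup.T ^ i.val

/-- The coset of a matrix. -/
def idx (g : SL(2, ℤ)) : Option (ZMod 17) :=
  if (g 1 0 : ZMod 17) = 0 then none else some ((g 1 1 : ZMod 17) * (g 1 0 : ZMod 17)⁻¹)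

end Pool.Agent.Lib.MP_d6ddbd_nt.X
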