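import Pool.Agent.Lib.MP_d6ddbd_nt.X.Defs
import Pool.Agent.Lib.MP_9177b7_ag.CM.Norm
import Pool.Agent.Lib.MP_9177b7_ag.CM.Mono
import Pool.Agent.Lib.MP_9177b7_ag.CM.Kron

/-!
A calculus of `q`-expansions.
-/

set_option autoImplicit false

open UpperHalfPlane Filter Topology PowerSeries
open scoped MatrixGroups
open Pool.Agent.Lib.MP_9177b7_ag.CM Pool.Agent.Lib.MP_9177b7_ag.CM.Norm

noncomputable section

namespace Pool.Agent.Lib.MP_d6ddbd_nt.X

/-- The parameter `exp (2 π i τ / h)`. -/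
abbrev qq (h : ℝ) (τ : ℍ) : ℂ := Function.Periodic.qParam h τ

theorem qq_ne (h : ℝ) (τ : ℍ) : qq h τ ≠ 0 := Function.Periodic.qParam_ne_zero _

theorem qq_lt {h : ℝ} (hh : 0 < h) (τ : ℍ) : ‖qq h τ‖ < 1 :=
  Function.Periodic.norm_qParam_lt_one hh τ.im_pos

variable {h : ℝ} {F G : ℍ → ℂ} {a b : PowerSeries ℂ}

theorem exists_qq (hh : 0 < h) {z : ℂ} (hz : ‖z‖ < 1) (h0 : z ≠ 0) : ∃ τ : ℍ, qq h τ = z :=
  ⟨⟨Function.Periodic.invQParam h z, Function.Periodic.im_invQParam_pos_of_norm_lt_one hh hz h0⟩,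
    Function.Periodic.qParam_right_inv hh.ne' h0⟩

theorem hq_of_disc (hh : 0 < h) {g : ℂ → ℂ} (hg : DifferentiableOn ℂ g (Metric.ball 0 1))
    (hF : ∀ τ, F τ = g (qq h τ)) : HQ h F (tay g) := by
  intro τ
  rw [hF]
  have := Complex.hasSum_taylorSeries_on_ball hg (z := qq h τ) (by simpa using qq_lt hh τ)
  have e : (fun m => coeff m (tay g) • Function.Periodic.qParam h τ ^ m) =
      fun n => ((n.factorial : ℂ))⁻¹ • (qq h τ - 0) ^ n • iteratedDeriv n g 0 := by
    funext m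
    simp only [Mono.coeff_tay, smul_eq_mul, sub_zero]
    ring
  rw [e]
  exact this

theorem hq_disc (hh : 0 < h) (H : HQ h F a) : ∃ g : ℂ → ℂ,
    DifferentiableOn ℂ g (Metric.ball 0 1) ∧ (∀ τ, F τ = g (qq h τ)) ∧ tay g = a := by
  let p : FormalMultilinearSeries ℂ ℂ ℂ := .ofScalars ℂ fun n => coeff n a
  have hr : 1 ≤ p.radius := by
    refine le_of_forall_lt_imp_le_of_dense fun r hr => ?_
    rcases eq_or_ne r 0 with rfl | hr'
    · simp
    lift r to NNReal using hr.ne_top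
    apply FormalMultilinearSeries.le_radius_of_summable
    obtain ⟨τ, hτ⟩ := exists_qq hh (z := (r : ℝ)) (by simpa using hr) (mod_cast hr')
    have := (H τ).summable.norm
    rw [show Function.Periodic.qParam h τ = (r : ℝ) from hτ] at this
    simpa [p, smul_eq_mul, norm_mul, mul_comm, mul_left_comm, mul_assoc] using this
  have hp := (p.hasFPowerSeriesOnBall (lt_of_lt_of_le one_pos hr)).mono one_pos hr
  refine ⟨p.sum, ?_, fun τ => ?_, ?_⟩
  · have := hp.differentiableOn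
    rwa [← ENNReal.coe_one, Metric.eball_coe, NNReal.coe_one] at this
  · have h1 := hp.hasSum (y := qq h τ) (by
      rw [← ENNReal.coe_one, Metric.eball_coe, NNReal.coe_one, mem_ball_zero_iff]
      exact qq_lt hh τ)
    rw [zero_add] at h1
    refine (H τ).unique ?_
    simpa [p, mul_comm] using h1
  · ext n
    have h2 := hp.hasFPowerSeriesAt.eq_formalMultilinearSeries
      hp.hasFPowerSeriesAt.analyticAt.hasFPowerSeriesAt
    have h3 := congrArg (FormalMultilinearSeries.coeff · n) h2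
    simp only [p, FormalMultilinearSeries.coeff_ofScalars] at h3
    rw [Mono.coeff_tay, h3, div_eq_mul_inv, mul_comm]

theorem an_of_disc {g : ℂ → ℂ} (hg : DifferentiableOn ℂ g (Metric.ball 0 1)) :
    AnalyticAt ℂ g 0 :=
  hg.analyticAt (Metric.ball_mem_nhds _ one_pos)

theorem hq_congr (H : HQ h F a) (e : ∀ τ, G τ = F τ) : HQ h G a := by
  rwa [funext e]

theorem hq_add (H : HQ h F a) (K : HQ h G b) : HQ h (fun τ => F τ + G τ) (a + b) := fun τ => by
  simpa [add_mul] using (H τ).add (K τ)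

theorem hq_smul (c : ℂ) (H : HQ h F a) : HQ h (fun τ => c * F τ) (C c * a) := fun τ => by
  simpa [mul_assoc] using (H τ).mul_left c

theorem hq_sub (H : HQ h F a) (K : HQ h G b) : HQ h (fun τ => F τ - G τ) (a - b) := fun τ => by
  simpa [sub_mul] using (H τ).sub (K τ)

theorem hq_const (h : ℝ) (c : ℂ) : HQ h (fun _ => c) (C c) := by
  simpa using hq_smul c (HQ_one h)

theorem hq_pow (H : HQ h F a) (n : ℕ) : HQ h (fun τ => F τ ^ n) (a ^ n) := by
  induction n with
  | zero => simpa using HQ_one h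
  | succ n ih => simpa [pow_succ] using HQ_mul ih H

theorem hq_X (h : ℝ) : HQ h (qq h) X := fun τ => by
  have := hasSum_single (f := fun m => coeff m (X : PowerSeries ℂ) •
    Function.Periodic.qParam h τ ^ m) 1 (fun m hm => by simp [coeff_X, hm])
  simpa using this

theorem hq_sum {ι : Type} (s : Finset ι) {F : ι → ℍ → ℂ} {a : ι → PowerSeries ℂ}
    (H : ∀ i ∈ s, HQ h (F i) (a i)) : HQ h (fun τ => ∑ i ∈ s, F i τ) (∑ i ∈ s, a i) := by
  classical
  induction s using Finset.induction_on with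
  | empty => simpa using hq_const h 0
  | insert i s hi ih =>
    simp only [Finset.sum_insert hi]
    exact hq_add (H i (by simp)) (ih fun j hj => H j (by simp [hj]))

theorem hq_prod {ι : Type} (s : Finset ι) {F : ι → ℍ → ℂ} {a : ι → PowerSeries ℂ}
    (H : ∀ i ∈ s, HQ h (F i) (a i)) : HQ h (fun τ => ∏ i ∈ s, F i τ) (∏ i ∈ s, a i) := by
  classical
  induction s using Finset.induction_on with
  | empty => simpa using HQ_one h
  | insert i s hi ih =>
    simp only [Finset.prod_insert hi]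
    exact HQ_mul (H i (by simp)) (ih fun j hj => H j (by simp [hj]))

theorem hq_unique (hh : 0 < h) (H : HQ h F a) (K : HQ h F b) : a = b := by
  obtain ⟨g, hg, e, t⟩ := hq_disc hh (hq_sub H K)
  rw [← sub_eq_zero, ← t]
  refine Mono.tay_eq_zero (an_of_disc hg) ?_
  filter_upwards [self_mem_nhdsWithin,
    mem_nhdsWithin_of_mem_nhds (Metric.ball_mem_nhds (0 : ℂ) one_pos)] with z h0 hz
  obtain ⟨τ, rfl⟩ := exists_qq hh (by simpa using hz) h0
  rw [← e, sub_self]

theorem hq_hol (hh : 0 < h) (H : HQ h F a) :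
    DifferentiableOn ℂ (F ∘ ofComplex) {z : ℂ | 0 < z.im} := by
  obtain ⟨g, hg, e, -⟩ := hq_disc hh H
  refine (hg.comp (Function.Periodic.differentiable_qParam (h := h)).differentiableOn
    fun z hz => ?_).congr fun z hz => ?_
  · simpa using Function.Periodic.norm_qParam_lt_one hh hz
  · simp [e, qq, ofComplex_apply_of_im_pos hz]

theorem hq_tendsto (hh : 0 < h) (H : HQ h F a) : Tendsto F atImInfty (𝓝 (coeff 0 a)) := by
  obtain ⟨g, hg, e, t⟩ := hq_disc hh H
  rw [funext e, ← t, Mono.coeff_tay]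
  simpa [Function.comp_def] using
    (an_of_disc hg).continuousAt.tendsto.comp (qParam_tendsto_atImInfty hh)

theorem hq_bdd (hh : 0 < h) (H : HQ h F a) : IsBoundedAtImInfty F :=
  isBoundedAtImInfty_of_hasSum_qExpansion hh H

theorem hq_inv (hh : 0 < h) (H : HQ h F a) (h0 : coeff 0 a ≠ 0) (hF : ∀ τ, F τ ≠ 0) :
    ∃ b, HQ h (fun τ => (F τ)⁻¹) b ∧ a * b = 1 := by
  obtain ⟨g, hg, e, t⟩ := hq_disc hh H
  have hg0 : ∀ z ∈ Metric.ball (0 : ℂ) 1, g z ≠ 0 := by
    intro z hz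
    rcases eq_or_ne z 0 with rfl | hz0
    · rw [← t, Mono.coeff_tay] at h0
      simpa using h0
    · obtain ⟨τ, rfl⟩ := exists_qq hh (by simpa using hz) hz0
      rw [← e]; exact hF τ
  have K : HQ h (fun τ => (F τ)⁻¹) (tay fun z => (g z)⁻¹) :=
    hq_of_disc hh (hg.inv hg0) fun τ => by rw [e]
  exact ⟨_, K, hq_unique hh (HQ_mul H K)
    (hq_congr (HQ_one h) fun τ => mul_inv_cancel₀ (hF τ))⟩

theorem hq_divX (H : HQ h (fun τ => qq h τ * F τ) (X * a)) : HQ h F a := fun τ => by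
  have h1 := (hasSum_nat_add_iff' 1).2 (H τ)
  have h2 := h1.mul_left (qq h τ)⁻¹
  have h0 := qq_ne h τ
  have e1 : (fun m => coeff m a • Function.Periodic.qParam h τ ^ m) = fun m => (qq h τ)⁻¹ *
      coeff (m + 1) (X * a) • Function.Periodic.qParam h τ ^ (m + 1) := by
    funext m
    simp only [coeff_succ_X_mul, smul_eq_mul, pow_succ]
    field_simp
  have e2 : F τ = (qq h τ)⁻¹ * (qq h τ * F τ - ∑ i ∈ Finset.range 1,
      coeff i (X * a) • Function.Periodic.qParam h τ ^ i) := by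
    simp only [Finset.range_one, Finset.sum_singleton, coeff_zero_X_mul, zero_smul, sub_zero]
    field_simp
  rw [e1, e2]
  exact h2

theorem qq_up (τ : ℍ) : qq 1 (up τ) = qq 1 τ ^ 17 := by
  rw [qq, qq, coe_up (by norm_num), Function.Periodic.qParam, Function.Periodic.qParam,
    ← Complex.exp_nat_mul]
  congr 1
  push_cast
  ring

theorem qq_17 (τ : ℍ) : qq 1 τ = qq 17 τ ^ 17 := by
  rw [qq, qq, Function.Periodic.qParam, Function.Periodic.qParam, ← Complex.exp_nat_mul]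
  congr 1
  push_cast
  ring

/-- A primitive root of unity of order `17`. -/
def zt : ℂ := Complex.exp (2 * Real.pi * Complex.I / (17 : ℕ))

theorem qq_dn (i : ℕ) (τ : ℍ) : qq 1 (dn 17 i τ) = zt ^ i * qq 17 τ := by
  rw [qq, qq, zt, coe_dn (by norm_num), Function.Periodic.qParam, Function.Periodic.qParam,
    ← Complex.exp_nat_mul, ← Complex.exp_add]
  congr 1
  push_cast
  ring

theorem hq_up (H : HQ 1 F a) : HQ 1 (fun τ => F (up τ)) (expand 17 (by norm_num) a) := fun τ => by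
  apply hasSum_expand
  have := H (up τ)
  rwa [show Function.Periodic.qParam 1 ((up τ : ℍ) : ℂ) = qq 1 τ ^ 17 from qq_up τ] at this

theorem hq_17 (H : HQ 1 F a) : HQ 17 F (expand 17 (by norm_num) a) := fun τ => by
  apply hasSum_expand
  have := H τ
  rwa [show Function.Periodic.qParam 1 (τ : ℂ) = qq 17 τ ^ 17 from qq_17 τ] at this

theorem hq_dn (H : HQ 1 F a) (i : ℕ) :
    HQ 17 (fun τ => F (dn 17 i τ)) (rescale (zt ^ i) a) := fun τ => by
  have := H (dn 17 i τ)
  rw [show Function.Periodic.qParam 1 ((dn 17 i τ : ℍ) : ℂ) = _ from qq_dn i τ] at this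
  convert this using 2 with m
  rw [coeff_rescale, mul_pow, smul_eq_mul, smul_eq_mul]
  ring

/-- Existence of the expansion. -/
theorem hq_exists (hF : DifferentiableOn ℂ (F ∘ ofComplex) {z : ℂ | 0 < z.im})
    (hT : ∀ τ, F (ModularGroup.T • τ) = F τ) (hb : IsBoundedAtImInfty F) :
    HQ 1 F (qExpansion 1 F) := by
  refine hasSum_qExpansion one_pos (fun z => ?_) (mdifferentiable_iff.2 hF) hb
  by_cases hz : 0 < z.im
  · have hz' : 0 < (z + (1 : ℝ)).im := by simpa using hz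
    simp only [Function.comp_apply, ofComplex_apply_of_im_pos hz, ofComplex_apply_of_im_pos hz']
    rw [← hT ⟨z, hz⟩, modular_T_smul]
    congr 1
    ext
    simp [add_comm]
  · have hz' : ¬ 0 < (z + (1 : ℝ)).im := by simpa using hz
    simp only [Function.comp_apply]
    rw [ofComplex_apply_eq_of_im_nonpos (not_lt.1 hz') (not_lt.1 hz)]

/-! ### Truncated rational expansions -/

/-- `q ^ m F` has a rational expansion whose first `N` coefficients are listed in `l`. -/
def Ex (m N : ℕ) (F : ℍ → ℂ) (l : List ℚ) : Prop :=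
  ∃ φ : PowerSeries ℚ, HQ 1 (fun τ => qq 1 τ ^ m * F τ) (φ.map (algebraMap ℚ ℂ)) ∧
    ∀ i < N, coeff i φ = l.getD i 0

def mulL (N : ℕ) (a b : List ℚ) : List ℚ :=
  (List.range N).map fun i => ((List.range (i + 1)).map fun j => a.getD j 0 * b.getD (i - j) 0).sum

def addL (N : ℕ) (a b : List ℚ) : List ℚ := (List.range N).map fun i => a.getD i 0 + b.getD i 0

def eqL (N : ℕ) (a b : List ℚ) : Bool := (List.range N).all fun i => a.getD i 0 == b.getD i 0

theorem getD_map_range {N i : ℕ} (hi : i < N) (f : ℕ → ℚ) :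
    ((List.range N).map f).getD i 0 = f i := by
  simp [List.getD_eq_getElem?_getD, hi]

theorem of_eqL {N : ℕ} {a b : List ℚ} (e : eqL N a b = true) {i : ℕ} (hi : i < N) :
    a.getD i 0 = b.getD i 0 := by
  simpa using List.all_eq_true.1 e i (List.mem_range.2 hi)

theorem coeff_mulL {N : ℕ} {φ ψ : PowerSeries ℚ} {k l : List ℚ}
    (h1 : ∀ i < N, coeff i φ = k.getD i 0) (h2 : ∀ i < N, coeff i ψ = l.getD i 0) :
    ∀ i < N, coeff i (φ * ψ) = (mulL N k l).getD i 0 := by
  intro i hi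
  rw [mulL, getD_map_range hi, coeff_mul, Finset.Nat.sum_antidiagonal_eq_sum_range_succ_mk,
    ← List.sum_toFinset _ List.nodup_range, List.toFinset_range]
  refine Finset.sum_congr rfl fun j hj => ?_
  have := Finset.mem_range.1 hj
  rw [h1 j (by omega), h2 (i - j) (by omega)]

variable {m n N : ℕ} {k l : List ℚ}

theorem Ex.mul (H : Ex m N F k) (K : Ex n N G l) :
    Ex (m + n) N (fun τ => F τ * G τ) (mulL N k l) := by
  obtain ⟨φ, h1, h2⟩ := H
  obtain ⟨ψ, h3, h4⟩ := K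
  refine ⟨φ * ψ, ?_, coeff_mulL h2 h4⟩
  rw [map_mul]
  exact hq_congr (HQ_mul h1 h3) fun τ => by ring

theorem Ex.add (H : Ex m N F k) (K : Ex m N G l) : Ex m N (fun τ => F τ + G τ) (addL N k l) := by
  obtain ⟨φ, h1, h2⟩ := H
  obtain ⟨ψ, h3, h4⟩ := K
  refine ⟨φ + ψ, ?_, fun i hi => ?_⟩
  · rw [map_add]
    exact hq_congr (hq_add h1 h3) fun τ => by ring
  · rw [addL, getD_map_range hi, map_add, h2 i hi, h4 i hi]

theorem Ex.smul (c : ℚ) (H : Ex m N F k) : Ex m N (fun τ => c * F τ) (k.map (c * ·)) := by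
  obtain ⟨φ, h1, h2⟩ := H
  refine ⟨C c * φ, ?_, fun i hi => ?_⟩
  · rw [map_mul, map_C]
    exact hq_congr (hq_smul (c : ℂ) h1) fun τ => by ring
  · rw [coeff_C_mul, h2 i hi]
    simpa using (List.getD_map (f := (c * ·)) (l := k) (d := 0) (n := i)).symm

theorem Ex.const (N : ℕ) (c : ℚ) : Ex 0 N (fun _ => c) [c] := by
  refine ⟨C c, ?_, fun i _ => ?_⟩
  · rw [map_C]
    exact hq_congr (hq_const 1 (c : ℂ)) fun τ => by simp
  · cases i <;> simp [coeff_C]

theorem Ex.congr (H : Ex m N F k) {N' : ℕ} (hN : N' ≤ N) (e : eqL N' k l = true)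
    (hG : ∀ τ, G τ = F τ) : Ex m N' G l := by
  obtain ⟨φ, h1, h2⟩ := H
  exact ⟨φ, hq_congr h1 fun τ => by rw [hG], fun i hi => by rw [h2 i (by omega), of_eqL e hi]⟩

theorem Ex.raise (H : Ex m N F k) : Ex (m + 1) (N + 1) F (0 :: k) := by
  obtain ⟨φ, h1, h2⟩ := H
  refine ⟨X * φ, ?_, fun i hi => ?_⟩
  · rw [map_mul, map_X]
    exact hq_congr (HQ_mul (hq_X 1) h1) fun τ => by ring
  · cases i with
    | zero => simp
    | succ i => simpa [coeff_succ_X_mul] using h2 i (by omega)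

theorem Ex.down (H : Ex (m + 1) (N + 1) F (0 :: k)) : Ex m N F k := by
  obtain ⟨φ, h1, h2⟩ := H
  obtain ⟨ψ, rfl⟩ : X ∣ φ := X_dvd_iff.2 (by simpa using h2 0 (by omega))
  refine ⟨ψ, hq_divX ?_, fun i hi => ?_⟩
  · rw [map_mul, map_X] at h1
    exact hq_congr h1 fun τ => by ring
  · simpa [coeff_succ_X_mul] using h2 (i + 1) (by omega)

theorem Ex.inv (H : Ex 0 (N + 1) F k) (hF : ∀ τ, F τ ≠ 0)
    (e : eqL (N + 1) (mulL (N + 1) k l) [1] = true) : Ex 0 (N + 1) (fun τ => (F τ)⁻¹) l := by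
  obtain ⟨φ, h1, h2⟩ := H
  let ψ : PowerSeries ℚ := PowerSeries.mk fun i => l.getD i 0
  have h3 : ∀ i < N + 1, coeff i (φ * ψ) = coeff i (1 : PowerSeries ℚ) := fun i hi => by
    rw [coeff_mulL h2 (fun i _ => coeff_mk i _) i hi, of_eqL e hi]
    cases i <;> simp [coeff_one]
  have h0 : constantCoeff φ ≠ 0 := fun h0 => by
    have := h3 0 (by omega)
    simp [h0] at this
  obtain ⟨b, h4, h5⟩ := hq_inv one_pos (F := F) (by simpa using h1) (by simpa using h0) hF
  have h6 : b = (φ⁻¹).map (algebraMap ℚ ℂ) := by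
    have h7 : φ.map (algebraMap ℚ ℂ) * (φ⁻¹).map (algebraMap ℚ ℂ) = 1 := by
      rw [← map_mul, PowerSeries.mul_inv_cancel _ h0, map_one]
    calc b = b * (φ.map (algebraMap ℚ ℂ) * (φ⁻¹).map (algebraMap ℚ ℂ)) := by rw [h7, mul_one]
      _ = _ := by rw [← mul_assoc, mul_comm b, h5, one_mul]
  refine ⟨φ⁻¹, by simpa [← h6] using h4, fun i hi => ?_⟩
  obtain ⟨ρ, hρ⟩ : X ^ (N + 1) ∣ φ * ψ - 1 :=
    X_pow_dvd_iff.2 fun i hi => by rw [map_sub, h3 i hi, sub_self]
  have h8 : ψ - φ⁻¹ = X ^ (N + 1) * (ρ * φ⁻¹) := by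
    have := PowerSeries.mul_inv_cancel _ h0
    linear_combination φ⁻¹ * hρ - ψ * this
  have h9 := X_pow_dvd_iff.1 ⟨_, h8⟩ i hi
  rw [map_sub, sub_eq_zero, coeff_mk] at h9
  exact h9.symm

theorem Ex.up (H : Ex 0 N F k) (hN : N ≤ 17) :
    Ex 0 N (fun τ => F (up τ)) [k.getD 0 0] := by
  obtain ⟨φ, h1, h2⟩ := H
  refine ⟨expand 17 (by norm_num) φ, ?_, fun i hi => ?_⟩
  · rw [map_expand]
    simpa using hq_up (F := F) (by simpa using h1)
  · cases i with
    | zero => simpa using h2 0 hi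
    | succ i =>
      rw [coeff_expand_of_not_dvd _ _ _ (Nat.not_dvd_of_pos_of_lt (by omega) (by omega))]
      simp

end Pool.Agent.Lib.MP_d6ddbd_nt.X
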