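import Pool.Agent.Lib.MP_d6ddbd_nt.X.Stmt
import Pool.Agent.Lib.MP_9177b7_ag.CM.Main

/-!
The discriminant quotient at the Heegner points of level `17`, by cycles of isogenies.
-/

set_option autoImplicit false

open UpperHalfPlane Pointwise
open Pool.Agent.Lib.MP_9177b7_ag.CM hiding up
open Pool.Agent.Lib.MP_d6ddbd_nt.K

noncomputable section

namespace Pool.Agent.Lib.MP_d6ddbd_nt.X

namespace Cyc

section val

variable {O : ValuationSubring ℂ}

theorem nu_mul {x y : ℂ} (hx : x ∈ O) (hy : y ∈ O.nonunits) : x * y ∈ O.nonunits := by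
  rw [O.mem_nonunits_iff] at hy ⊢
  rw [map_mul]
  exact lt_of_le_of_lt (mul_le_of_le_one_left' ((O.valuation_le_one_iff x).2 hx)) hy

theorem one_not : (1 : ℂ) ∉ O.nonunits := by
  rw [O.mem_nonunits_iff, map_one]
  exact lt_irrefl _

theorem nu_of_mul {x y : ℂ} (hx : x ∉ O.nonunits) (h : x * y ∈ O.nonunits) :
    y ∈ O.nonunits := by
  rw [O.mem_nonunits_iff] at hx h ⊢
  rw [map_mul] at h
  exact lt_of_le_of_lt (le_mul_of_one_le_left' (not_lt.1 hx)) h

theorem pow_not {x : ℂ} (hx : x ∉ O.nonunits) (n : ℕ) : x ^ n ∉ O.nonunits := by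
  induction n with
  | zero => simpa using one_not
  | succ n ih =>
    intro h
    rw [pow_succ'] at h
    exact ih (nu_of_mul hx h)

theorem int_not (hO : (17 : ℂ) ∈ O.nonunits) {b : ℤ} (hb : ¬ (17 : ℤ) ∣ b) :
    (b : ℂ) ∉ O.nonunits := by
  intro h
  have hp : Prime (17 : ℤ) := Int.prime_iff_natAbs_prime.2 (by norm_num)
  obtain ⟨u, w, e⟩ := hp.irreducible.coprime_iff_not_dvd.2 hb
  have e' : (u : ℂ) * 17 + w * b = 1 := by exact_mod_cast e
  exact one_not (e' ▸ O.nonunits.add_mem (nu_mul (intCast_mem O u) hO)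
    (nu_mul (intCast_mem O w) h))

theorem mem_of_int {x : ℂ} (hx : IsIntegral ℤ x) : x ∈ O := by
  have h1 : IsIntegral O x := hx.tower_top
  obtain ⟨y, rfl⟩ := IsIntegrallyClosed.isIntegral_iff.1 h1
  exact y.2

end val

theorem int_of_le {L : Submodule ℤ ℂ} (hL : IsLat L) {x y : ℂ} (hy : y ≠ 0)
    (h : x • L ≤ y • L) : IsIntegral ℤ (x / y) := by
  obtain ⟨z, hz, hz0⟩ := hL.exists_ne_zero
  obtain ⟨p, q, e, -⟩ := hL.exists_sp
  refine isIntegral_of_smul_mem_submodule L ?_ ?_ _ fun n hn => ?_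
  · intro h0
    rw [h0] at hz
    exact hz0 hz
  · rw [e]
    exact Submodule.fg_span (Set.toFinite _)
  · obtain ⟨w, hw, e1⟩ := mem_smul_iff.1 (h (mem_smul_iff.2 ⟨n, hn, rfl⟩))
    have : (x / y) • n = w := by
      rw [smul_eq_mul, div_mul_eq_mul_div, ← e1]
      field_simp
    rwa [this]

theorem smul_cancel {L M : Submodule ℤ ℂ} {c : ℂ} (hc : c ≠ 0) (h : c • L = c • M) : L = M := by
  have := congrArg (fun X : Submodule ℤ ℂ => c⁻¹ • X) h
  simpa only [smul_smul, inv_mul_cancel₀ hc, one_smul] using this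

/-- The next lattice of the cycle. -/
def nx (be : ℂ) (L : Submodule ℤ ℂ) : Submodule ℤ ℂ := (17 : ℂ) • L ⊔ be • L

theorem mem_two {x y z : ℂ} {L : Submodule ℤ ℂ} :
    z ∈ x • L ⊔ y • L ↔ ∃ p ∈ L, ∃ q ∈ L, x * p + y * q = z := by
  rw [Submodule.mem_sup]
  constructor
  · rintro ⟨_, h1, _, h2, rfl⟩
    obtain ⟨p, hp, rfl⟩ := mem_smul_iff.1 h1
    obtain ⟨q, hq, rfl⟩ := mem_smul_iff.1 h2
    exact ⟨p, hp, q, hq, rfl⟩
  · rintro ⟨p, hp, q, hq, rfl⟩
    exact ⟨_, mem_smul_iff.2 ⟨p, hp, rfl⟩, _, mem_smul_iff.2 ⟨q, hq, rfl⟩, rfl⟩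

theorem nx_smul (be c : ℂ) (L : Submodule ℤ ℂ) : nx be (c • L) = c • nx be L := by
  rw [nx, nx, Submodule.smul_sup', smul_smul, smul_smul, smul_smul, smul_smul, mul_comm c,
    mul_comm c]

theorem it_smul (be c : ℂ) (L : Submodule ℤ ℂ) (n : ℕ) :
    (nx be)^[n] (c • L) = c • (nx be)^[n] L := by
  induction n with
  | zero => rfl
  | succ n ih => rw [Function.iterate_succ_apply', Function.iterate_succ_apply', ih, nx_smul]

theorem pow_le (be : ℂ) (L : Submodule ℤ ℂ) (n : ℕ) : be ^ n • L ≤ (nx be)^[n] L := by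
  induction n with
  | zero => simp
  | succ n ih =>
    rw [Function.iterate_succ_apply', pow_succ', mul_smul]
    exact (smul_le_smul be ih).trans le_sup_right

/-- Lattices with multiplication by `al`. -/
def St (al : ℂ) (L : Submodule ℤ ℂ) : Prop := IsLat L ∧ al • L ≤ L

theorem St.smul {al c : ℂ} {L : Submodule ℤ ℂ} (h : St al L) (hc : c ≠ 0) : St al (c • L) := by
  refine ⟨hyp.isLat_smul h.1 hc, ?_⟩
  rw [smul_smul, mul_comm, mul_smul]
  exact smul_le_smul c h.2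

theorem St.mul {al x : ℂ} {L : Submodule ℤ ℂ} (h : St al L) (hx : x ∈ L) : al * x ∈ L :=
  h.2 (mem_smul_iff.2 ⟨x, hx, rfl⟩)

theorem sev_mem {L : Submodule ℤ ℂ} {x : ℂ} (hx : x ∈ L) : 17 * x ∈ L := by
  simpa using Lat.int_mul_mem hx 17

section

variable {al be : ℂ} {b k : ℤ} {L : Submodule ℤ ℂ}

theorem nx_le (h1 : al + be = -b) (hL : St al L) : nx be L ≤ L := by
  intro z hz
  obtain ⟨p, hp, q, hq, rfl⟩ := mem_two.1 hz
  have e : be * q = (-b : ℤ) * q - al * q := by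
    push_cast
    linear_combination q * h1
  rw [e]
  exact L.add_mem (sev_mem hp) (L.sub_mem (Lat.int_mul_mem hq _) (hL.mul hq))

theorem St.nx (h1 : al + be = -b) (hL : St al L) : St al (nx be L) := by
  refine ⟨hyp.isLat_between (hyp.isLat_smul hL.1 (by norm_num : (17 : ℂ) ≠ 0)) hL.1 le_sup_left
    (nx_le h1 hL), fun z hz => ?_⟩
  obtain ⟨w, hw, rfl⟩ := mem_smul_iff.1 hz
  obtain ⟨p, hp, q, hq, rfl⟩ := mem_two.1 hw
  exact mem_two.2 ⟨_, hL.mul hp, _, hL.mul hq, by ring⟩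

theorem St.it (h1 : al + be = -b) (hL : St al L) (n : ℕ) : St al ((Cyc.nx be)^[n] L) := by
  induction n with
  | zero => exact hL
  | succ n ih =>
    rw [Function.iterate_succ_apply']
    exact ih.nx h1

theorem prv (h1 : al + be = -b) (h2 : al * be = 17 * k) (hb : ¬ (17 : ℤ) ∣ b) (hL : St al L) :
    (17 : ℂ) • nx be L ⊔ al • nx be L = (17 : ℂ) • L := by
  apply le_antisymm
  · refine sup_le (smul_le_smul _ (nx_le h1 hL)) fun z hz => ?_
    obtain ⟨w, hw, rfl⟩ := mem_smul_iff.1 hz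
    obtain ⟨p, hp, q, hq, rfl⟩ := mem_two.1 hw
    exact mem_smul_iff.2 ⟨al * p + k * q, L.add_mem (hL.mul hp) (Lat.int_mul_mem hq k),
      by linear_combination (-q) * h2⟩
  · intro z hz
    obtain ⟨x, hx, rfl⟩ := mem_smul_iff.1 hz
    have a1 : 17 * x ∈ nx be L := mem_two.2 ⟨x, hx, 0, L.zero_mem, by ring⟩
    have a2 : be * x ∈ nx be L := mem_two.2 ⟨0, L.zero_mem, x, hx, by ring⟩
    refine Lat.mem_of_coprime (l := 17) (by norm_num) (b := b) (by exact_mod_cast hb) ?_ ?_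
    · exact mem_two.2 ⟨_, a1, 0, Submodule.zero_mem _, by push_cast; ring⟩
    · exact mem_two.2 ⟨_, Submodule.neg_mem _ a2, _, Submodule.neg_mem _ a1,
        by linear_combination (-17 * x) * h1⟩

theorem it_cancel (h1 : al + be = -b) (h2 : al * be = 17 * k) (hb : ¬ (17 : ℤ) ∣ b)
    {M : Submodule ℤ ℂ} (hL : St al L) (hM : St al M) (n : ℕ)
    (h : (nx be)^[n] L = (nx be)^[n] M) : L = M := by
  induction n with
  | zero => exact h
  | succ n ih =>
    rw [Function.iterate_succ_apply', Function.iterate_succ_apply'] at h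
    refine ih (smul_cancel (by norm_num : (17 : ℂ) ≠ 0) ?_)
    rw [← prv h1 h2 hb (hL.it h1 n), h, prv h1 h2 hb (hM.it h1 n)]

variable {O : ValuationSubring ℂ}

theorem not_le (hO : (17 : ℂ) ∈ O.nonunits) {x : ℂ} (hx : x ∉ O.nonunits)
    (h : IsIntegral ℤ (x / 17)) : False := by
  have := nu_mul (mem_of_int h) hO
  rw [div_mul_cancel₀ _ (by norm_num)] at this
  exact hx this

theorem conj_al (h1 : al + be = -b) (h2 : al * be = 17 * k) (him : al.im ≠ 0) :
    starRingEnd ℂ al = be := by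
  have e : al ^ 2 + b * al + 17 * k = 0 := by linear_combination al * h1 - h2
  have e' := congrArg (starRingEnd ℂ) e
  simp only [map_add, map_mul, map_pow, map_intCast, map_ofNat, map_zero] at e'
  have : (starRingEnd ℂ al - al) * (starRingEnd ℂ al - be) = 0 := by
    linear_combination e' - starRingEnd ℂ al * h1 + h2
  rcases mul_eq_zero.1 this with h | h
  · exact absurd (Complex.conj_eq_iff_im.1 (sub_eq_zero.1 h)) him
  · exact sub_eq_zero.1 h

theorem lt_nx (hO : (17 : ℂ) ∈ O.nonunits) (hbe : be ∉ O.nonunits) (hL : IsLat L) :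
    (17 : ℂ) • L < nx be L := by
  refine lt_of_le_of_ne le_sup_left fun h => ?_
  exact not_le hO hbe (int_of_le hL (by norm_num) (h ▸ le_sup_right : be • L ≤ (17 : ℂ) • L))

theorem nx_lt (hO : (17 : ℂ) ∈ O.nonunits) (hbe : be ∉ O.nonunits) (h1 : al + be = -b)
    (h2 : al * be = 17 * k) (hb : ¬ (17 : ℤ) ∣ b) (him : al.im ≠ 0) (hL : St al L) :
    nx be L < L := by
  refine lt_of_le_of_ne (nx_le h1 hL) fun h => ?_
  have e := prv h1 h2 hb hL
  rw [h] at e
  have i1 := int_of_le hL.1 (by norm_num) (e ▸ le_sup_right : al • L ≤ (17 : ℂ) • L)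
  have i2 := i1.map (starRingEnd ℂ).toIntAlgHom
  have e2 : (starRingEnd ℂ).toIntAlgHom (al / 17) = be / 17 := by
    change starRingEnd ℂ (al / 17) = _
    rw [map_div₀, conj_al h1 h2 him, map_ofNat]
  exact not_le hO hbe (e2 ▸ i2)

theorem step (h : NewStmt) (hO : (17 : ℂ) ∈ O.nonunits) (hbe : be ∉ O.nonunits)
    (h1 : al + be = -b) (h2 : al * be = 17 * k) (hb : ¬ (17 : ℤ) ∣ b) (him : al.im ≠ 0)
    (hL : St al L) (hr : dis L / dis (nx be L) ∈ O) :
    dis (nx be L) / dis (nx be (nx be L)) ∈ O := by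
  have s1 := hL.nx h1
  have h17 : (17 : ℂ) ≠ 0 := by norm_num
  rcases O.mem_or_inv_mem (dis (nx be L) / dis (nx be (nx be L))) with h0 | h0
  · exact h0
  refine h O hO _ _ ((17 : ℂ) • L) s1.1 (lt_nx hO hbe s1.1) (nx_lt hO hbe h1 h2 hb him s1) ?_
    (lt_nx hO hbe hL.1) ?_ ?_ ?_
  · exact lt_of_le_of_ne (smul_le_smul _ (nx_le h1 hL))
      fun e => (nx_lt hO hbe h1 h2 hb him hL).ne (smul_cancel h17 e)
  · intro e
    have := pow_le be L 2
    change be ^ 2 • L ≤ nx be (nx be L) at this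
    exact not_le hO (pow_not hbe 2) (int_of_le hL.1 h17 (e ▸ this))
  · rw [inv_div] at h0
    rw [mul_div_assoc]
    exact O.mul_mem _ _ (pow_mem (O.nonunits_subset hO) 12) h0
  · rw [hyp.dis_smul L h17, ← mul_assoc, mul_inv_cancel₀ (pow_ne_zero _ h17), one_mul]
    exact hr

theorem main (h : NewStmt) (hO : (17 : ℂ) ∈ O.nonunits) (hal : al ∈ O.nonunits)
    (h1 : al + be = -b) (h2 : al * be = 17 * k) (hb : ¬ (17 : ℤ) ∣ b) (him : al.im ≠ 0)
    (hL : St al L) : dis L / dis (nx be L) ∉ O.nonunits := by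
  intro h0
  have hbe : be ∉ O.nonunits := fun hh => int_not hO hb (by
    have := O.nonunits.neg_mem (O.nonunits.add_mem hal hh)
    rwa [h1, neg_neg] at this)
  have a1 : ∀ n, dis ((nx be)^[n] L) / dis (nx be ((nx be)^[n] L)) ∈ O := by
    intro n
    induction n with
    | zero => exact O.nonunits_subset h0
    | succ n ih =>
      rw [Function.iterate_succ_apply']
      exact step h hO hbe h1 h2 hb him (hL.it h1 n) ih
  have a2 : ∀ n, dis L / dis ((nx be)^[n + 1] L) ∈ O.nonunits := by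
    intro n
    induction n with
    | zero => exact h0
    | succ n ih =>
      have := nu_mul (a1 (n + 1)) ih
      rw [mul_comm, div_mul_div_cancel₀ (hyp.dis_ne_zero (hL.it h1 _).1)] at this
      rwa [Function.iterate_succ_apply' (n := n + 1)]
  obtain ⟨m, n, hmn, e⟩ := (hyp.finite_Jset him).exists_lt_map_eq_of_forall_mem
    (f := fun n : ℕ => jL ((nx be)^[n] L)) fun n =>
      show _ ∈ Jset al from ⟨_, (hL.it h1 n).1, (hL.it h1 n).2, rfl⟩
  obtain ⟨c, hc, e1⟩ := hyp.eq_smul_of_jL_eq (hL.it h1 m).1 (hL.it h1 n).1 e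
  obtain ⟨d, rfl⟩ := Nat.exists_eq_add_of_lt hmn
  rw [add_assoc, Function.iterate_add_apply, ← it_smul] at e1
  have e2 := it_cancel h1 h2 hb (hL.it h1 _) (hL.smul hc) m e1
  have a3 := a2 d
  rw [e2, hyp.dis_smul L hc, mul_comm, ← div_div, div_self (hyp.dis_ne_zero hL.1), one_div,
    inv_inv] at a3
  have i1 : be ^ (d + 1) / c ∈ O := mem_of_int (int_of_le hL.1 hc (e2 ▸ pow_le be L (d + 1)))
  have hcn : c ∉ O.nonunits := fun hh => by
    have := nu_mul i1 hh
    rw [div_mul_cancel₀ _ hc] at this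
    exact pow_not hbe _ this
  exact pow_not hcn 12 a3

end

end Cyc

open Cyc

theorem cyc (h : NewStmt) : CycStmt := by
  intro O hO a b c τ e hb hal
  have hτ : (τ : ℂ).im ≠ 0 := τ.im_pos.ne'
  have ha : a ≠ 0 := by
    rintro rfl
    have := congrArg Complex.im e
    simp at this
    rcases this with h0 | h0
    · exact hb (h0 ▸ dvd_zero _)
    · exact hτ h0
  have him : (17 * (a : ℂ) * τ).im ≠ 0 := by
    simpa using ⟨ha, hτ⟩
  have hL : St (17 * a * τ) (sp τ 1) := by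
    refine ⟨hyp.isLat_sp τ, ?_⟩
    rw [smul_sp, sp_le]
    exact ⟨mem_sp.2 ⟨-b, -c, by push_cast; linear_combination -e⟩,
      mem_sp.2 ⟨17 * a, 0, by push_cast; ring⟩⟩
  have hu : ((up τ : ℍ) : ℂ) = 17 * τ := by
    simpa using Norm.coe_up (l := 17) (by norm_num) τ
  have e1 : nx (-b - 17 * a * τ) (sp τ 1) = sp (up τ) 1 := by
    rw [hu]
    apply le_antisymm
    · rw [nx, smul_sp, smul_sp, sup_le_iff, sp_le, sp_le]
      exact ⟨⟨left_mem_sp _ _, mem_sp.2 ⟨0, 17, by push_cast; ring⟩⟩,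
        mem_sp.2 ⟨0, c, by push_cast; linear_combination e⟩,
        mem_sp.2 ⟨-a, -b, by push_cast; ring⟩⟩
    · rw [sp_le]
      refine ⟨mem_two.2 ⟨_, left_mem_sp _ _, 0, Submodule.zero_mem _, by ring⟩, ?_⟩
      refine Lat.mem_of_coprime (l := 17) (by norm_num) (b := b) (by exact_mod_cast hb) ?_ ?_
      · exact mem_two.2 ⟨_, right_mem_sp _ _, 0, Submodule.zero_mem _, by push_cast; ring⟩
      · exact mem_two.2 ⟨_, mem_sp.2 ⟨-a, 0, rfl⟩, _, mem_sp.2 ⟨0, -1, rfl⟩, by push_cast; ring⟩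
  have := main (be := -b - 17 * a * τ) (b := b) (k := a * c) h hO hal (by ring)
    (by push_cast; linear_combination (-17 * (a : ℂ)) * e) hb him hL
  have hpi : (2 * (Real.pi : ℂ)) ^ 12 ≠ 0 :=
    pow_ne_zero _ (mul_ne_zero two_ne_zero (by exact_mod_cast Real.pi_ne_zero))
  rwa [e1, hyp.eis.2.2.1, hyp.eis.2.2.1, mul_div_mul_left _ _ hpi] at this

theorem valu (h : CycStmt) (hC : CosStmt) (hM : ModStmt) (hE : CurStmt) : ValStmt := by
  intro O hO Δ β hΔ
  have key : ∀ τ : ℍ, XX τ ∈ O.nonunits →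
      ModularForm.discriminant τ / ModularForm.discriminant (up τ) ∈ O.nonunits := by
    intro τ hX
    have hX' : XX τ ∈ O := O.nonunits_subset hX
    have hY : YY τ ∈ O.nonunits := by
      by_contra hY
      refine pow_not hY 2 ?_
      rw [hE.1, mul_comm]
      refine nu_mul ?_ hX
      exact O.add_mem _ _ (O.add_mem _ _ (pow_mem hX' 2) (O.mul_mem _ _ (ofNat_mem O 30) hX'))
        (ofNat_mem O 289)
    have e : ((16 : ℤ) : ℂ) * tf τ = (XX τ + 94) * XX τ + 17 * 17 - 16 * YY τ := by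
      rw [YY]
      push_cast
      ring
    have ht : tf τ ∈ O.nonunits := by
      refine nu_of_mul (int_not hO (b := 16) (by norm_num)) ?_
      rw [e]
      exact O.nonunits.sub_mem (O.nonunits.add_mem
        (nu_mul (O.add_mem _ _ hX' (ofNat_mem O 94)) hX) (nu_mul (ofNat_mem O 17) hO))
        (nu_mul (ofNat_mem O 16) hY)
    rw [← hM.2.2.2.2.2.2.1 τ, pow_succ]
    exact nu_mul (pow_mem (O.nonunits_subset ht) 3) ht
  have hbΔ : ∀ a b c : ℤ, b ^ 2 - 68 * a * c = Δ → ¬ (17 : ℤ) ∣ b := by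
    rintro a b c rfl ⟨m, rfl⟩
    exact hΔ ⟨17 * m ^ 2 - 4 * a * c, by ring⟩
  by_cases h0 : ∃ τ : ℍ, ∃ Q ∈ Hg Δ β τ, 17 * (Q.1 : ℂ) * τ ∈ O.nonunits
  · left
    obtain ⟨τ₀, ⟨a₀, b₀, c₀⟩, ⟨p0, d0, ⟨m0, g0⟩, e0⟩, n0⟩ := h0
    rintro τ ⟨⟨a, b, c⟩, p, d, ⟨m, g⟩, e⟩ hX
    dsimp only at p0 d0 g0 e0 n0 p d g e
    refine h O hO a b c τ e (hbΔ a b c d) ?_ (key τ hX)
    have d' : (b : ℂ) ^ 2 - 68 * a * c = b₀ ^ 2 - 68 * a₀ * c₀ := by
      exact_mod_cast d.trans d0.symm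
    have s : (34 * a * τ + b - (34 * a₀ * τ₀ + b₀) : ℂ) *
        (34 * a * τ + b + (34 * a₀ * τ₀ + b₀)) = 0 := by
      linear_combination 68 * a * e - 68 * a₀ * e0 + d'
    rcases mul_eq_zero.1 s with s | s
    · have g' : (b₀ : ℂ) - b = 34 * ((m0 - m : ℤ) : ℂ) := by
        have : b₀ - b = 34 * (m0 - m) := by linear_combination g0 - g
        exact_mod_cast this
      have e2 : 17 * (a : ℂ) * τ = 17 * a₀ * τ₀ + ((m0 - m : ℤ) : ℂ) * 17 := by
        linear_combination s / 2 + g' / 2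
      rw [e2]
      exact O.nonunits.add_mem n0 (nu_mul (intCast_mem O _) hO)
    · exfalso
      have s1 := congrArg Complex.im s
      simp at s1
      have q1 : (0 : ℝ) < a := by exact_mod_cast p
      have q2 : (0 : ℝ) < a₀ := by exact_mod_cast p0
      have q3 := mul_pos q1 τ.im_pos
      have q4 := mul_pos q2 τ₀.im_pos
      linarith
  · right
    rintro τ ⟨⟨a, b, c⟩, hQ⟩ hX
    have n0 : 17 * (a : ℂ) * τ ∉ O.nonunits := fun hh => h0 ⟨τ, _, hQ, hh⟩
    obtain ⟨-, d, -, e⟩ := hQ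
    dsimp only at d e
    have hτ : (τ : ℂ) ≠ 0 := τ.ne_zero
    refine h O hO c (-b) a (ww τ) ?_ (by rw [dvd_neg]; exact hbΔ a b c d) ?_ (key _ hX)
    · rw [hC.1]
      push_cast
      field_simp
      linear_combination e
    · refine nu_of_mul n0 ?_
      have : 17 * (a : ℂ) * τ * (17 * c * ww τ) = ((-(a * c) : ℤ) : ℂ) * 17 := by
        rw [hC.1]
        push_cast
        field_simp
      rw [this]
      exact nu_mul (intCast_mem O _) hO

end Pool.Agent.Lib.MP_d6ddbd_nt.X
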