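import Pool.Agent.Lib.MP_d6ddbd_nt.K.DefsX
import Pool.Agent.Lib.MP_d6ddbd_nt.GF.Gen

/-!
Statements of the pieces on the modular curve `X₀(17)`.
-/

set_option autoImplicit false

open UpperHalfPlane Pointwise
open scoped MatrixGroups
open Pool.Agent.Lib.MP_9177b7_ag.CM (jH dn sp Conj IsLat dis)
open Pool.Agent.Lib.MP_d6ddbd_nt.K
open Pool.Agent.Lib.MP_d6ddbd_nt.GF (mir)

noncomputable section

namespace Pool.Agent.Lib.MP_d6ddbd_nt.X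

/-- `f` has a rational expansion that starts at `q ^ (-m)`, with first coefficients `l`. -/
def Lead (f : ℍ → ℂ) (m : ℤ) (l : List ℚ) : Prop :=
  ∃ c, QE 1 f c ∧ RatS c ∧ (∀ N < -m, c.coeff N = 0) ∧
    ∀ i < l.length, c.coeff (i - m) = l.getD i 0

/-- Cosets of `Γ₀(17)` and the Fricke involution. -/
def CosStmt : Prop :=
  (∀ τ : ℍ, (ww τ : ℂ) = -1 / (17 * τ)) ∧ (∀ τ, ww (ww τ) = τ) ∧
  (∀ γ ∈ G0, ∃ γ' ∈ G0, ∀ τ : ℍ, ww (γ • τ) = γ' • ww τ) ∧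
  (∀ g : SL(2, ℤ), g * (rep (idx g))⁻¹ ∈ G0) ∧ (∀ i, idx (rep i) = i) ∧
  (∀ γ ∈ G0, ∀ g, idx (γ * g) = idx g) ∧
  (∀ (i : ZMod 17) (τ : ℍ), rep (some i) • τ = ww (dn 17 i.val τ)) ∧
  ∀ f : ℍ → ℂ, Hol f → (∀ γ ∈ G0, ∀ τ : ℍ, f (γ • τ) = f τ) → Gro f → (Gro fun τ => f (ww τ)) →
    MF G0 f

/-- A modular function which is bounded at both cusps is constant. -/
def LiouStmt : Prop := ∀ f : ℍ → ℂ, Hol f → (∀ γ ∈ G0, ∀ τ : ℍ, f (γ • τ) = f τ) →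
  IsBoundedAtImInfty f → (IsBoundedAtImInfty fun τ => f (ww τ)) → ∃ c, ∀ τ, f τ = c

/-- The transformation of the two eta quotients. -/
def EtaStmt : Prop := ∀ γ ∈ G0, ∀ τ : ℍ,
  tf (γ • τ) = tf τ ∧ Hh (γ • τ) = ((γ 1 0 : ℤ) * (τ : ℂ) + (γ 1 1 : ℤ)) ^ 4 * Hh τ

/-- The coordinates are modular functions, with their expansions at both cusps. -/
def ModStmt : Prop :=
  MF G0 xf ∧ MF G0 XX ∧ MF G0 YY ∧ MF G0 tf ∧ (MF G0 fun τ => (tf τ)⁻¹) ∧ (∀ τ, tf τ ≠ 0) ∧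
  (∀ τ, tf τ ^ 4 = ModularForm.discriminant τ / ModularForm.discriminant (up τ)) ∧
  (∀ τ, tf (ww τ) = 4913 / tf τ) ∧
  Lead xf 2 [1, 1, 1] ∧ Lead XX 2 [4, 4, -7] ∧ Lead YY 3 [8, 12] ∧ Lead tf 4 [1, -6] ∧
  Lead (fun τ => (tf τ)⁻¹) (-4) [1, 6] ∧
  Lead (fun τ => xf (ww τ)) 0 [7, 34] ∧ Lead (fun τ => XX (ww τ)) 0 [17, 136] ∧
  Lead (fun τ => YY (ww τ)) 0 [136]

/-- The equation, the Fricke involution and complex conjugation. -/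
def CurStmt : Prop :=
  (∀ τ, YY τ ^ 2 = XX τ * (XX τ ^ 2 + 30 * XX τ + 289)) ∧
  (∀ τ, phi (ww τ) = TT - phi τ) ∧
  ∀ τ, XX (mir τ) = starRingEnd ℂ (XX τ) ∧ YY (mir τ) = starRingEnd ℂ (YY τ)

/-- The Newton polygon of the discriminant quotients of the sublattices of index `17`. -/
def NewStmt : Prop := ∀ O : ValuationSubring ℂ, (17 : ℂ) ∈ O.nonunits →
  ∀ L M N : Submodule ℤ ℂ, IsLat L → (17 : ℂ) • L < M → M < L → (17 : ℂ) • L < N → N < L →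
    M ≠ N → 17 ^ 12 * dis M / dis L ∈ O → 17 ^ 12 * dis N / dis L ∈ O → dis L / dis M ∈ O

/-- The discriminant quotient at a Heegner point. -/
def CycStmt : Prop := ∀ O : ValuationSubring ℂ, (17 : ℂ) ∈ O.nonunits →
  ∀ (a b c : ℤ) (τ : ℍ), 17 * (a : ℂ) * (τ : ℂ) ^ 2 + b * (τ : ℂ) + c = 0 → ¬ (17 : ℤ) ∣ b →
    17 * (a : ℂ) * τ ∈ O.nonunits →
      ModularForm.discriminant τ / ModularForm.discriminant (up τ) ∉ O.nonunits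

/-- The component of the Heegner points at `17`. -/
def ValStmt : Prop := ∀ O : ValuationSubring ℂ, (17 : ℂ) ∈ O.nonunits → ∀ Δ β : ℤ,
  ¬ (17 : ℤ) ∣ Δ → (∀ τ, (Hg Δ β τ).Nonempty → XX τ ∉ O.nonunits) ∨
    ∀ τ, (Hg Δ β τ).Nonempty → XX (ww τ) ∉ O.nonunits

end Pool.Agent.Lib.MP_d6ddbd_nt.X
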