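import Pool.Agent.Lib.MP_d6ddbd_nt.X.New1
import Pool.Agent.Lib.MP_d6ddbd_nt.X.Stmt
import Pool.Agent.Lib.MP_9177b7_ag.CM.Lat
import Pool.Agent.Lib.MP_9177b7_ag.CM.Eis

/-!
The Newton polygon of the discriminant quotients of the sublattices of index `17`.
-/

set_option autoImplicit false

open UpperHalfPlane PowerSeries Pointwise
open scoped MatrixGroups
open Pool.Agent.Lib.MP_9177b7_ag.CM Pool.Agent.Lib.MP_9177b7_ag.CM.Kron
  Pool.Agent.Lib.MP_9177b7_ag.CM.Norm

noncomputable section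

namespace Pool.Agent.Lib.MP_d6ddbd_nt.X

namespace NewAux

/-- The eighteen conjugates of `17 ^ 12 Δ (17 τ)`. -/
def WW (i : ℕ) (τ : ℍ) : ℂ := if i < 17 then DD (dn 17 i τ) else 17 ^ 12 * DD (X.up τ)

/-- Their expansions. -/
def aa (i : ℕ) : ℂ⟦X⟧ := if i < 17 then rescale (zt ^ i) (qExpansion 1 DD) else
  C (17 ^ 12) * expand 17 (by norm_num) (expand 17 (by norm_num) (qExpansion 1 DD))

def EF (r : ℕ) (τ : ℍ) : ℂ := ((Finset.range 18).val.map (WW · τ)).esymm r

def EA (r : ℕ) : ℂ⟦X⟧ := ((Finset.range 18).val.map aa).esymm r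

theorem hq_WW (i : ℕ) : HQ 17 (WW i) (aa i) := by
  unfold WW aa
  split_ifs
  · exact hq_dn (HQ_form DD) i
  · exact hq_smul _ (hq_17 (hq_up (HQ_form DD)))

theorem hq_EF (r : ℕ) : HQ 17 (EF r) (EA r) := by
  unfold EF EA
  simp only [Finset.esymm_map_val]
  exact hq_sum _ fun t _ => hq_prod _ fun i _ => hq_WW i

theorem EF_perm (p : ℕ → ℕ) (hp : (Finset.range 18).val.map p = (Finset.range 18).val) {z w : ℍ}
    {c : ℂ} (h : ∀ i < 18, WW i w = c * WW (p i) z) (r : ℕ) : EF r w = c ^ r * EF r z := by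
  rw [EF, EF, ← esymm_mul]
  conv_rhs => rw [← hp, Multiset.map_map, Multiset.map_map]
  exact congrArg (Multiset.esymm · r)
    (Multiset.map_congr rfl fun i hi => h i (Finset.mem_range.1 hi))

theorem EF_T (r : ℕ) (z w : ℍ) (hw : (w : ℂ) = z + 1) : EF r w = EF r z := by
  rw [EF_perm (fun i => if i < 17 then (i + 1) % 17 else 17) (by decide) (z := z) (c := 1),
    one_pow, one_mul]
  intro i _
  by_cases h : i < 17
  · have h1 : (i : ℂ) + 1 = ((i + 1) % 17 : ℕ) + 17 * ((i + 1) / 17 : ℕ) := by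
      exact_mod_cast (Nat.mod_add_div (i + 1) 17).symm
    simp only [WW, h, if_true, Nat.mod_lt (i + 1) (show 0 < 17 by norm_num)]
    rw [trans DD 1 ((i + 1) / 17 : ℕ) 0 1 (by ring) (dn 17 ((i + 1) % 17) z) (dn 17 i w) (by
      rw [coe_dn (by norm_num), coe_dn (by norm_num), hw]
      simp only [Int.cast_natCast, Int.cast_one, Int.cast_zero, Nat.cast_ofNat]
      linear_combination h1 / 17)]
    simp
  · simp only [WW, h, if_false, lt_irrefl]
    rw [trans DD 1 17 0 1 (by ring) (X.up z) (X.up w) (by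
      rw [coe_up (by norm_num), coe_up (by norm_num), hw]; push_cast; ring)]
    simp

theorem EF_S (r : ℕ) (z w : ℍ) (hw : (w : ℂ) = (-(z : ℂ))⁻¹) :
    EF r w = ((z : ℂ) ^ 12) ^ r * EF r z := by
  have hz : (z : ℂ) ≠ 0 := z.ne_zero
  refine EF_perm (fun i => if i = 0 then 17 else if i = 17 then 0 else 16 * i ^ 15 % 17)
    (by decide) (fun i hi => ?_) r
  by_cases h0 : i = 0
  · subst h0
    simp only [WW, if_true, lt_irrefl, if_false, show 0 < 17 by norm_num]
    rw [trans DD 0 (-1) 1 0 (by ring) (X.up z) (dn 17 0 w) (by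
      rw [coe_up (by norm_num), coe_dn (by norm_num), hw]; push_cast; field_simp; ring),
      coe_up (by norm_num), zpow_ofNat]
    push_cast
    ring
  by_cases h1 : i = 17
  · subst h1
    simp only [WW, if_true, lt_irrefl, if_false, show 0 < 17 by norm_num, h0]
    rw [trans DD 0 (-1) 1 0 (by ring) (dn 17 0 z) (X.up w) (by
      rw [coe_up (by norm_num), coe_dn (by norm_num), hw]; push_cast
      simp only [zero_mul, zero_add, add_zero, one_mul]; field_simp), coe_dn (by norm_num),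
      zpow_ofNat]
    push_cast
    ring
  have h2 : i < 17 := by omega
  obtain ⟨e, he⟩ : 17 ∣ i * (16 * i ^ 15 % 17) + 1 := by
    revert h0 h2
    generalize i = n
    revert n
    have : ∀ n < 17, ¬ n = 0 → 17 ∣ n * (16 * n ^ 15 % 17) + 1 := by decide
    exact fun n h h' => this n h' h
  simp only [WW, h0, h1, h2, if_true, if_false, Nat.mod_lt _ (show 0 < 17 by norm_num)]
  generalize 16 * i ^ 15 % 17 = k at he
  have he' : (i : ℤ) * k + 1 = 17 * e := by exact_mod_cast he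
  have he'' : (i : ℂ) * k + 1 = 17 * e := by exact_mod_cast he
  have hd : ((17 : ℤ) : ℂ) * ((dn 17 k z : ℍ) : ℂ) + ((-(k : ℤ) : ℤ) : ℂ) = z := by
    rw [coe_dn (by norm_num)]; push_cast; ring
  rw [trans DD i (-(e : ℤ)) 17 (-(k : ℤ)) (by linear_combination -he') (dn 17 k z) (dn 17 i w) (by
    rw [hd, coe_dn (by norm_num), coe_dn (by norm_num), hw]; push_cast; field_simp
    linear_combination -he''), hd, zpow_ofNat]

theorem EF_slash (r : ℕ) (γ : SL(2, ℤ)) : SlashAction.map (12 * (r : ℤ)) γ (EF r) = EF r := by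
  refine SlashInvariantForm.slash_action_generators_SL2Z ?_ ?_ γ
  · funext z
    rw [ModularForm.SL_slash_apply, EF_S r z _ (by rw [modular_S_smul]), ModularGroup.denom_S,
      zpow_neg, zpow_mul, zpow_natCast, zpow_ofNat]
    have := z.ne_zero
    field_simp
  · funext z
    rw [ModularForm.SL_slash_apply, EF_T r z _ (by rw [modular_T_smul]; simp [add_comm])]
    simp [ModularGroup.denom_apply, ModularGroup.coe_T]

/-- The elementary symmetric functions as modular forms. -/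
def EM (r : ℕ) : ModularForm 𝒮ℒ (12 * (r : ℤ)) where
  toFun := EF r
  slash_action_eq' A hA := by
    obtain ⟨A, rfl⟩ := hA
    exact EF_slash r A
  holo' := mdifferentiable_iff.2 (hq_hol (by norm_num) (hq_EF r))
  bdd_at_cusps' {c} hc := by
    rw [Subgroup.IsArithmetic.isCusp_iff_isCusp_SL2Z] at hc
    rw [OnePoint.isBoundedAt_iff_forall_SL2Z hc]
    intro γ _
    have h1 := hq_bdd (by norm_num) (hq_EF r)
    rw [← EF_slash r γ] at h1
    exact h1

theorem coeff_EM (r n : ℕ) : coeff n (qExpansion 1 (EM r)) = coeff (17 * n) (EA r) := by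
  rw [← hq_unique (by norm_num) (hq_17 (HQ_form (EM r))) (hq_EF r), coeff_expand_mul]

theorem zt_pow : zt ^ 17 = 1 := (Complex.isPrimitiveRoot_exp 17 (by norm_num)).pow_eq_one

theorem mem_range {A : Subring ℂ} {f : ℂ⟦X⟧} :
    f ∈ (PowerSeries.map A.subtype).range ↔ ∀ n, coeff n f ∈ A :=
  ⟨fun ⟨g, e⟩ n => e ▸ (coeff n g).2, fun h => ⟨PowerSeries.mk fun n => ⟨_, h n⟩, by
    ext n; simp⟩⟩

theorem coeff_EA_mem {A : Subring ℂ} (h6 : (6 : ℂ)⁻¹ ∈ A) (hz : zt ∈ A) (r : ℕ) :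
    ∀ n, coeff n (EA r) ∈ A := by
  rw [← mem_range, EA, Finset.esymm_map_val]
  refine sum_mem fun t _ => prod_mem fun i _ => mem_range.2 fun n => ?_
  unfold aa
  split_ifs
  · rw [coeff_rescale]
    exact A.mul_mem (A.pow_mem (A.pow_mem hz _) _) (coeff_DD_mem h6 n)
  · rw [coeff_C_mul, coeff_expand, coeff_expand]
    refine A.mul_mem (A.pow_mem (ofNat_mem A 17) _) ?_
    split_ifs
    exacts [coeff_DD_mem h6 _, A.zero_mem, A.zero_mem]

theorem aa_lo {i : ℕ} (h : i < 17) : ∃ b, aa i = X * b ∧ constantCoeff b = zt ^ i := by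
  obtain ⟨D, hD, h1⟩ := DD_eq_X
  refine ⟨C (zt ^ i) * rescale (zt ^ i) D, ?_, ?_⟩
  · rw [aa, if_pos h, hD, map_mul, rescale_X]
    ring
  · rw [map_mul, constantCoeff_C, ← coeff_zero_eq_constantCoeff_apply, coeff_rescale]
    simp [h1]

theorem aa_hi : ∃ b, aa 17 = X ^ 289 * b ∧ constantCoeff b = 17 ^ 12 := by
  obtain ⟨D, hD, h1⟩ := DD_eq_X
  refine ⟨C (17 ^ 12) * expand 17 (by norm_num) (expand 17 (by norm_num) D), ?_, ?_⟩
  · rw [aa, if_neg (lt_irrefl _), hD, map_mul, map_mul, expand_X, map_pow (expand 17 _), expand_X]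
    ring
  · rw [map_mul, constantCoeff_C, constantCoeff_expand, constantCoeff_expand, h1, mul_one]

theorem EA_zero (r : ℕ) : coeff 0 (EA (r + 1)) = 0 := by
  rw [EA, Finset.esymm_map_val, coeff_zero_eq_constantCoeff_apply, map_sum]
  refine Finset.sum_eq_zero fun t ht => ?_
  obtain ⟨h1, h2⟩ := Finset.mem_powersetCard.1 ht
  obtain ⟨i, hi⟩ := Finset.card_pos.1 (show 0 < t.card by omega)
  rw [map_prod]
  refine Finset.prod_eq_zero hi ?_
  rcases Nat.lt_succ_iff_lt_or_eq.1 (Finset.mem_range.1 (h1 hi)) with h | rfl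
  · obtain ⟨b, e, -⟩ := aa_lo h
    simp [e]
  · obtain ⟨b, e, -⟩ := aa_hi
    simp [e]

theorem aa_prod : ∃ b, ((Finset.range 17).val.map aa).esymm 17 = X ^ 17 * b ∧
    constantCoeff b = 1 := by
  have h := esymm_top ((Finset.range 17).val.map aa)
  rw [Multiset.card_map, Finset.card_val, Finset.card_range] at h
  choose! b h1 h2 using fun i (h : i < 17) => aa_lo h
  refine ⟨∏ i ∈ Finset.range 17, b i, ?_, ?_⟩
  · rw [h, Finset.prod_map_val, Finset.prod_congr rfl fun i hi => h1 i (Finset.mem_range.1 hi),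
      Finset.prod_mul_distrib, Finset.prod_const, Finset.card_range]
  · rw [map_prod, Finset.prod_congr rfl fun i hi => h2 i (Finset.mem_range.1 hi),
      Finset.prod_pow_eq_pow_sum, show ∑ i ∈ Finset.range 17, i = 17 * 8 by decide, pow_mul, zt_pow,
      one_pow]

theorem EA_eq (r : ℕ) : EA (r + 1) = ((Finset.range 17).val.map aa).esymm (r + 1) +
    aa 17 * ((Finset.range 17).val.map aa).esymm r := by
  rw [← esymm_cons, ← Multiset.map_cons, EA, Finset.range_val, Finset.range_val,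
    Multiset.range_succ]

theorem EA_17 : coeff 17 (EA 17) = 1 := by
  obtain ⟨b, h1, h2⟩ := aa_prod
  obtain ⟨b', h3, -⟩ := aa_hi
  rw [EA_eq, h1, h3, map_add, mul_assoc, coeff_X_pow_mul', coeff_X_pow_mul']
  simp [h2]

theorem EF_18 (τ : ℍ) : EM 18 τ / DD τ ^ 18 = 17 ^ 12 := by
  obtain ⟨b, h1, h2⟩ := aa_prod
  obtain ⟨b', h3, h4⟩ := aa_hi
  have h5 : EA 18 = X ^ 306 * (b' * b) := by
    rw [EA_eq, esymm_big (by simp), h1, h3]
    ring
  obtain ⟨c, hc⟩ : X ^ 18 ∣ qExpansion 1 (EM 18) := X_pow_dvd_iff.2 fun n hn => by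
    rw [coeff_EM, h5, coeff_X_pow_mul', if_neg (by omega)]
  have h6 : coeff (0 + 18) (qExpansion 1 (EM 18)) = coeff (0 + 306) (EA 18) := coeff_EM 18 18
  rw [h5, coeff_X_pow_mul, coeff_zero_eq_constantCoeff_apply, map_mul, h2, h4, mul_one, hc,
    coeff_X_pow_mul, coeff_zero_eq_constantCoeff_apply] at h6
  rw [← h6, ← top τ 18 (EM 18) c hc]

theorem point (O : ValuationSubring ℂ) (h17 : (17 : ℂ) ∈ O.nonunits) (τ : ℍ) {i k : ℕ}
    (hi : i < 18) (hk : k < 18) (hik : k ≠ i) (h1 : WW i τ / DD τ ∈ O) (h2 : WW k τ / DD τ ∈ O) :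
    17 ^ 12 / (WW i τ / DD τ) ∈ O := by
  have hz : zt ∈ O := by
    have h := congrArg O.valuation zt_pow
    rw [map_pow, map_one, pow_eq_one_iff_of_nonneg zero_le (by norm_num)] at h
    exact (O.valuation_le_one_iff _).1 h.le
  have h6 : (6 : ℂ)⁻¹ ∈ O := by
    have h := O.valuation.map_one_add_of_lt (O.mem_nonunits_iff.1 h17)
    rw [show (6 : ℂ)⁻¹ = 3 * (1 + 17)⁻¹ by norm_num]
    exact O.mul_mem _ _ (ofNat_mem O 3) ((O.valuation_le_one_iff _).1 (by rw [map_inv₀, h, inv_one]))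
  have hm : ∀ r n, coeff n (qExpansion 1 (EM r)) ∈ O.toSubring := fun r n => by
    rw [coeff_EM]
    exact coeff_EA_mem h6 hz r _
  have h0 : ∀ r, coeff 0 (qExpansion 1 (EM (r + 1))) = 0 := fun r => by rw [coeff_EM, EA_zero]
  have hi' : i ∈ (Finset.range 18).val := Finset.mem_range.2 hi
  have hk' : k ∈ (Finset.range 18).val.erase i :=
    (Multiset.mem_erase_of_ne hik).2 (Finset.mem_range.2 hk)
  have e : ∀ r, (WW i τ / DD τ ::ₘ WW k τ / DD τ ::ₘ
      (((Finset.range 18).val.erase i).erase k).map fun n => WW n τ / DD τ).esymm r =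
      EM r τ / DD τ ^ r := fun r => by
    rw [← Multiset.map_cons (fun n => WW n τ / DD τ), ← Multiset.map_cons (fun n => WW n τ / DD τ),
      Multiset.cons_erase hk', Multiset.cons_erase hi', div_eq_inv_mul, ← inv_pow]
    simp only [div_eq_inv_mul]
    exact (congrArg (Multiset.esymm · r) (Multiset.map_map _ _ _).symm).trans (esymm_mul _ _ r)
  refine polygon O (j := jH τ)
    (S := (((Finset.range 18).val.erase i).erase k).map fun n => WW n τ / DD τ) (by
      rw [Multiset.card_map, Multiset.card_erase_of_mem hk', Multiset.card_erase_of_mem hi']; rfl)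
    (div_ne_zero ?_ (ModularForm.discriminant_ne_zero τ)) ((O.valuation_le_one_iff _).2 h1)
    ((O.valuation_le_one_iff _).2 h2) (fun r hr => ?_) ?_ (by rw [e, EF_18])
  · unfold WW
    split_ifs
    · exact ModularForm.discriminant_ne_zero _
    · exact mul_ne_zero (by norm_num) (ModularForm.discriminant_ne_zero _)
  · cases r with
    | zero => simpa [esymm_zero] using one_le_pow₀ (le_max_left _ _)
    | succ r =>
      obtain ⟨g, h3, h4, -⟩ := step h6 (EM (r + 1)) (hm _)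
      rw [e, h4, h0, mul_zero, zero_add]
      exact (bound O h6 τ r g h3).trans (pow_le_pow_right₀ (le_max_left _ _) (by omega))
  · obtain ⟨g, h3, h4, h5⟩ := step h6 (EM (16 + 1)) (hm _)
    obtain ⟨g', h7, h8, -⟩ := step (m := 15) h6 g h3
    have h9 : coeff 0 (qExpansion 1 g) = 1 := by
      obtain ⟨D, hD, h⟩ := DD_eq_X
      have := coeff_EM 17 1
      rwa [h5 (h0 16), EA_17, hD, mul_assoc, coeff_succ_X_mul, coeff_zero_eq_constantCoeff_apply,
        map_mul, h, one_mul, ← coeff_zero_eq_constantCoeff_apply] at this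
    rw [e, h4, h0, mul_zero, zero_add, h8, h9, mul_one, add_sub_cancel_left]
    exact bound O h6 τ 15 g' h7

theorem dis_smul (L : Submodule ℤ ℂ) {c : ℂ} (hc : c ≠ 0) : dis (c • L) = (c ^ 12)⁻¹ * dis L := by
  simp only [dis, g2, g3, Lat.l3 L c _ hc]
  field_simp

theorem smul_lt {A B : Submodule ℤ ℂ} {c : ℂ} (hc : c ≠ 0) (h : A < B) : c • A < c • B := by
  refine lt_of_le_of_ne (fun z hz => ?_) fun e => h.ne ?_
  · obtain ⟨y, hy, rfl⟩ := Lat.mem_smul.1 hz
    exact Lat.mem_smul.2 ⟨y, h.le hy, rfl⟩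
  · rw [← inv_smul_smul₀ hc A, e, inv_smul_smul₀ hc]

theorem classify (τ : ℍ) {c : ℂ} (hc : c ≠ 0) {M : Submodule ℤ ℂ}
    (h1 : (17 : ℂ) • c • sp τ 1 < M) (h2 : M < c • sp τ 1) : ∃ i < 18,
      M = c • (if i < 17 then (17 : ℂ) • sp (dn 17 i τ) 1 else sp (X.up τ) 1) ∧
      17 ^ 12 * dis M / dis (c • sp τ 1) = WW i τ / DD τ := by
  have h3 := smul_lt (inv_ne_zero hc) h1
  have h4 := smul_lt (inv_ne_zero hc) h2
  rw [smul_comm, inv_smul_smul₀ hc] at h3
  rw [inv_smul_smul₀ hc] at h4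
  have hp : (Real.pi : ℂ) ≠ 0 := by exact_mod_cast Real.pi_ne_zero
  have hD := ModularForm.discriminant_ne_zero τ
  rw [← smul_inv_smul₀ hc M]
  rcases Lat.l8 17 τ _ (by norm_num) h3 h4 with h | ⟨i, hi, h⟩
  · refine ⟨17, by norm_num, by rw [h, if_neg (lt_irrefl _)], ?_⟩
    rw [h, dis_smul _ hc, dis_smul _ hc, Eis.dis_eq, Eis.dis_eq, WW, if_neg (lt_irrefl _), DD_apply,
      DD_apply]
    field_simp
  · refine ⟨i, by omega, by rw [h, if_pos hi, Nat.cast_ofNat], ?_⟩
    rw [h, dis_smul _ hc, dis_smul _ hc, dis_smul _ (by norm_num), Eis.dis_eq, Eis.dis_eq, WW,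
      if_pos hi, DD_apply, DD_apply, Nat.cast_ofNat]
    field_simp

end NewAux

theorem newton : NewStmt := by
  intro O h17 L M N hL h1 h2 h3 h4 hMN hM hN
  obtain ⟨τ, c, hc, rfl⟩ := Lat.exists_tau L hL
  obtain ⟨i, hi, e1, e2⟩ := NewAux.classify τ hc h1 h2
  obtain ⟨k, hk, e3, e4⟩ := NewAux.classify τ hc h3 h4
  have h := NewAux.point O h17 τ hi hk (fun h => hMN (by rw [e1, e3, h])) (e2 ▸ hM) (e4 ▸ hN)
  rwa [← e2, mul_div_assoc, div_mul_cancel_left₀ (by norm_num), inv_div] at h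

end Pool.Agent.Lib.MP_d6ddbd_nt.X
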