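import Pool.Agent.Lib.MP_d6ddbd_nt.X.Sep
import Pool.Agent.Lib.MP_d6ddbd_nt.X.Cos
import Pool.Agent.Lib.MP_d6ddbd_nt.X.Eta
import Pool.Agent.Lib.MP_d6ddbd_nt.X.New
import Pool.Agent.Lib.MP_d6ddbd_nt.X.Cyc
import Pool.Agent.Lib.MP_d6ddbd_nt.GF.FF
import Pool.Agent.Lib.MP_d6ddbd_nt.GF.Surj

/-!
The facts on the model of `X₀(17)`, without hypotheses.
-/

set_option autoImplicit false

open Pool.Agent.Lib.MP_d6ddbd_nt.K

namespace Pool.Agent.Lib.MP_d6ddbd_nt.X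

theorem modS : ModStmt := modl cos etaLaw

theorem curS : CurStmt := cur liou etaLaw

theorem mdlS : GF.Mdl XX YY tf := mdl cos liou etaLaw

theorem injS : GF.InjStmt XX YY := inj cos (GF.ff mdlS)

theorem equivS : GF.EquivStmt XX YY := equiv cos etaLaw (GF.ff mdlS) (GF.surj mdlS) curS.1

theorem valS : ValStmt := valu (cyc newton) cos modS curS

end Pool.Agent.Lib.MP_d6ddbd_nt.X
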