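import Pool.Agent.Lib.MP_d6ddbd_nt.X.Exp
import Pool.Agent.Lib.MP_d6ddbd_nt.G.Bridge
import Pool.Agent.Lib.MP_d6ddbd_nt.GF.AStmt

/-!
The Weierstrass model of `X₀(17)`.
-/

set_option autoImplicit false

open UpperHalfPlane Filter Topology
open scoped MatrixGroups
open Pool.Agent.Lib.MP_d6ddbd_nt.K
open WeierstrassCurve

noncomputable section

namespace Pool.Agent.Lib.MP_d6ddbd_nt.X

theorem XX_eq (τ : ℍ) : XX τ = 2 * (hm τ ^ 2 + hm τ + an τ) - 23 := by
  rw [XX, xf]; ring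

theorem XX_ww (τ : ℍ) : XX (ww τ) = 2 * (hm τ ^ 2 + hm τ - an τ) - 23 := by
  rw [XX_eq, hm_ww, an_ww]; ring

theorem YY_eq (hL : LiouStmt) (hE : EtaStmt) (τ : ℍ) :
    YY τ = (2 * hm τ + 1) * (XX τ - 17) - 136 := by
  rw [YY, XX_eq]
  linear_combination (1 / 4) * rel1 hL hE τ - (1 / 2) * rel2 hL hE τ - (1 / 2) * rel3 hL hE τ

theorem eqn (hL : LiouStmt) (hE : EtaStmt) (τ : ℍ) :
    YY τ ^ 2 = XX τ * (XX τ ^ 2 + 30 * XX τ + 289) := by
  rw [YY_eq hL hE]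
  have h := XX_eq τ
  linear_combination (-4 * (XX τ - 17)) * rel1 hL hE τ -
    (XX τ - 17) * (XX τ - 2 * (hm τ ^ 2 + hm τ - an τ) + 23) * h

theorem ex_xf : Ex 2 5 xf [1, 1, 1, 1, 2] :=
  ((((ex_h2.add ex_an).add ex_h1.pad).smul (1 / 2)).add (Ex.const 5 (-3)).pad.pad).congr le_rfl
    (by decide +kernel) fun τ => by rw [xf]; push_cast; ring

theorem ex_xw : Ex 0 3 (fun τ => xf (ww τ)) [7, 34, 119] :=
  (((((ex_h2.add (ex_an.smul (-1))).add ex_h1.pad).smul (1 / 2)).add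
    (Ex.const 5 (-3)).pad.pad).congr le_rfl
    (by decide +kernel) fun τ => by rw [xf, hm_ww, an_ww]; push_cast; ring).down.down

theorem ex_XX : Ex 2 5 XX [4, 4, -7, 4, 8] :=
  ((ex_xf.smul 4).add (Ex.const 5 (-11)).pad.pad).congr le_rfl
    (by decide +kernel) fun τ => by rw [XX]; push_cast; ring

theorem ex_XW : Ex 0 3 (fun τ => XX (ww τ)) [17, 136, 476] :=
  ((ex_xw.smul 4).add (Ex.const 3 (-11))).congr le_rfl
    (by decide +kernel) fun τ => by rw [XX]; push_cast; ring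

theorem ex_YY : Ex 3 4 YY [8, 12, 12, 16] :=
  ((((((ex_XX.mul ex_XX).add (ex_XX.pad.pad.smul 94)).add (Ex.const 5 289).pad.pad.pad.pad).add
    ((ex_tf.mono (by norm_num)).smul (-16))).smul (1 / 16)).congr le_rfl
    (by decide +kernel) fun τ => by rw [YY]; push_cast; ring).down

theorem ex_tw : Ex 0 3 (fun τ => tf (ww τ)) [0, 0, 0] :=
  (ex_it.smul 4913).congr (by norm_num) (by decide +kernel) fun τ => by
    rw [tf_ww]; push_cast; ring

theorem ex_YW : Ex 0 3 (fun τ => YY (ww τ)) [136, 1088, 4964] :=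
  (((((ex_XW.mul ex_XW).add (ex_XW.smul 94)).add (Ex.const 3 289)).add
    (ex_tw.smul (-16))).smul (1 / 16)).congr le_rfl
    (by decide +kernel) fun τ => by rw [YY]; push_cast; ring

theorem ex_iw : Ex 4 11 (fun τ => (tf (ww τ))⁻¹)
    (List.map (1 / 4913 * ·) [1, -6, 9, 10, -30, 0, 11, 42, 0, -70, 18]) :=
  (ex_tf.smul (1 / 4913)).congr le_rfl (by decide +kernel) fun τ => by
    rw [tf_ww, inv_div]; push_cast; ring

theorem lead_it : Lead (fun τ => (tf τ)⁻¹) (-4) [1, 6] := by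
  obtain ⟨φ, h1, h2⟩ := ex_it0
  refine hq_lead (φ := φ) (-4) (hq_congr h1 fun τ => ?_) fun i hi => ?_
  · have := qq_ne 1 τ
    rw [tf_inv, zpow_neg, zpow_ofNat]
    field_simp
  · have hi' : i < 2 := hi
    rw [h2 i (by omega)]
    interval_cases i <;> rfl

theorem modl (hC : CosStmt) (hE : EtaStmt) : ModStmt := by
  have h := hC.2.2.2.2.2.2.2
  have h1 : Inv XX := fun γ hγ τ => by simp only [XX, inv_xf hE γ hγ]
  have h2 : Inv YY := fun γ hγ τ => by simp only [YY, h1 γ hγ, inv_tf hE γ hγ]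
  refine ⟨h _ ex_xf.hol (inv_xf hE) ex_xf.gro ex_xw.gro, h _ ex_XX.hol h1 ex_XX.gro ex_XW.gro,
    h _ ex_YY.hol h2 ex_YY.gro ex_YW.gro, h _ ex_tf.hol (inv_tf hE) ex_tf.gro ex_tw.gro,
    h _ ex_it.hol (fun γ hγ τ => by simp only [inv_tf hE γ hγ]) ex_it.gro ex_iw.gro, tf_ne, tf_pow,
    tf_ww, Ex.lead (m := 2) (ex_xf.congr (by norm_num) (by decide +kernel) fun _ => rfl),
    Ex.lead (m := 2) (ex_XX.congr (by norm_num) (by decide +kernel) fun _ => rfl),
    Ex.lead (m := 3) (ex_YY.congr (by norm_num) (by decide +kernel) fun _ => rfl),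
    Ex.lead (m := 4) (ex_tf.congr (by norm_num) (by decide +kernel) fun _ => rfl), lead_it,
    Ex.lead (m := 0) (ex_xw.congr (by norm_num) (by decide +kernel) fun _ => rfl),
    Ex.lead (m := 0) (ex_XW.congr (by norm_num) (by decide +kernel) fun _ => rfl),
    Ex.lead (m := 0) (ex_YW.congr (by norm_num) (by decide +kernel) fun _ => rfl)⟩

theorem pt_eq {x y : ℂ} (h : y ^ 2 = x * (x ^ 2 + 30 * x + 289)) :
    pt x y = .some x y ((G.EE_ns x y).2 h) := dif_pos _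

theorem phi_ww (hL : LiouStmt) (hE : EtaStmt) (τ : ℍ) : phi (ww τ) = TT - phi τ := by
  have h1 := YY_eq hL hE τ
  have h2 := YY_eq hL hE (ww τ)
  have h3 := XX_eq τ
  have h4 := XX_ww τ
  have h5 := rel1 hL hE τ
  rw [hm_ww] at h2
  have hxy : ¬ ((17 : ℂ) = XX τ ∧ (136 : ℂ) = EE.negY (XX τ) (EE.negY (XX τ) (YY τ))) := by
    rintro ⟨e1, e2⟩
    rw [Affine.negY_negY, h1, ← e1] at e2
    norm_num at e2
  have hs : EE.slope 17 (XX τ) 136 (EE.negY (XX τ) (YY τ)) = -(2 * hm τ + 1) := by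
    by_cases e : (17 : ℂ) = XX τ
    · rw [Affine.slope_of_Y_ne e fun e2 => hxy ⟨e, e2⟩]
      have : 2 * hm τ + 1 = -8 := by
        rw [← e] at h3
        linear_combination (1 / 68) * h5 - (1 / 272) *
          (2 * (hm τ ^ 2 + hm τ - an τ) - 40) * h3
      rw [this]
      norm_num [EE, Affine.negY]
    · rw [Affine.slope_of_X_ne e, div_eq_iff (sub_ne_zero.2 e), h1]
      simp only [EE, Affine.negY]
      ring
  rw [phi, phi, TT, pt_eq (eqn hL hE _), pt_eq (eqn hL hE _), pt_eq (by norm_num), sub_eq_add_neg,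
    Affine.Point.neg_some, Affine.Point.add_some hxy]
  have hx : EE.addX 17 (XX τ) (EE.slope 17 (XX τ) 136 (EE.negY (XX τ) (YY τ))) = XX (ww τ) := by
    rw [hs, h4, h3]
    simp only [EE, Affine.addX]
    ring
  rw [Affine.Point.some.injEq]
  refine ⟨hx.symm, ?_⟩
  rw [Affine.addY, Affine.negAddY, hx, hs, h2]
  simp only [EE, Affine.negY]
  ring

theorem cur (hL : LiouStmt) (hE : EtaStmt) : CurStmt :=
  ⟨eqn hL hE, phi_ww hL hE, fun τ => ⟨ex_XX.mir τ, ex_YY.mir τ⟩⟩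

theorem mdl (hC : CosStmt) (hL : LiouStmt) (hE : EtaStmt) : GF.Mdl XX YY tf := by
  obtain ⟨-, h1, h2, h3, -, -, -, -, -, ⟨c, a1, a2, a3, a4⟩, ⟨d, b1, b2, b3, b4⟩, -⟩ := modl hC hE
  refine ⟨h1, h2, h3, tf_ne, eqn hL hE, fun z => by rw [YY]; ring, ⟨c, a1, a2, ?_, a3⟩,
    ⟨d, b1, b2, ?_, b3⟩, by simpa using ex_XW.tendsto, by simpa using ex_YW.tendsto,
    fun z => by rw [tf_ww, div_mul_cancel₀ _ (tf_ne z)], fun f hf => hL f hf.hol hf.inv⟩
  · have := a4 0 (by norm_num)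
    norm_num at this
    simp [this]
  · have := b4 0 (by norm_num)
    norm_num at this
    simp [this]

end Pool.Agent.Lib.MP_d6ddbd_nt.X
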