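import Pool.Agent.Lib.MP_d6ddbd_nt.X.Law

/-!
Expansions of the functions on `X₀(17)`, and the relations between them.
-/

set_option autoImplicit false

open UpperHalfPlane Filter Topology
open scoped MatrixGroups
open Pool.Agent.Lib.MP_9177b7_ag.CM Pool.Agent.Lib.MP_9177b7_ag.CM.Norm
open Pool.Agent.Lib.MP_d6ddbd_nt.K
open ModularForm EisensteinSeries

noncomputable section

namespace Pool.Agent.Lib.MP_d6ddbd_nt.X

variable {F G : ℍ → ℂ} {m n N : ℕ} {k l : List ℚ}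

theorem Ex.mono (H : Ex m N F k) {N' : ℕ} (hN : N' ≤ N) : Ex m N' F k := by
  obtain ⟨φ, h1, h2⟩ := H
  exact ⟨φ, h1, fun i hi => h2 i (by omega)⟩

theorem qq_24 (τ : ℍ) : qq 24 τ ^ 24 = qq 1 τ := by
  rw [qq, qq, Function.Periodic.qParam, Function.Periodic.qParam, ← Complex.exp_nat_mul]
  congr 1
  push_cast
  ring

theorem eta_up (τ : ℍ) : eta (17 * (τ : ℂ)) = qq 24 τ ^ 17 * pe (up τ) := by
  rw [← coe_up', eta_eq, qq, qq, coe_up', Function.Periodic.qParam, Function.Periodic.qParam,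
    ← Complex.exp_nat_mul]
  congr 2
  push_cast
  ring

theorem ex_ip : Ex 0 11 (fun τ => (pe τ)⁻¹) [1, 1, 2, 3, 5, 7, 11, 15, 22, 30, 42] :=
  ex_pe.inv pe_ne (by decide +kernel)

theorem ex_ip2 : Ex 0 11 (fun τ => (pe τ)⁻¹ ^ 2) [1, 2, 5, 10, 20, 36, 65, 110, 185, 300, 481] :=
  (ex_ip.mul ex_ip).congr le_rfl (by decide +kernel) fun τ => by ring

theorem ex_ip4 : Ex 0 11 (fun τ => (pe τ)⁻¹ ^ 4)
    [1, 4, 14, 40, 105, 252, 574, 1240, 2580, 5180, 10108] :=
  (ex_ip2.mul ex_ip2).congr le_rfl (by decide +kernel) fun τ => by ring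

theorem ex_ip6 : Ex 0 11 (fun τ => (pe τ)⁻¹ ^ 6)
    [1, 6, 27, 98, 315, 918, 2492, 6372, 15525, 36280, 81816] :=
  (ex_ip4.mul ex_ip2).congr le_rfl (by decide +kernel) fun τ => by ring

theorem ex_p2 : Ex 0 11 (fun τ => pe τ ^ 2) [1, -2, -1, 2, 1, 2, -2, 0, -2, -2, 1] :=
  (ex_pe.mul ex_pe).congr le_rfl (by decide +kernel) fun τ => by ring

theorem ex_p4 : Ex 0 11 (fun τ => pe τ ^ 4) [1, -4, 2, 8, -5, -4, -10, 8, 9, 0, 14] :=
  (ex_p2.mul ex_p2).congr le_rfl (by decide +kernel) fun τ => by ring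

theorem ex_p6 : Ex 0 11 (fun τ => pe τ ^ 6) [1, -6, 9, 10, -30, 0, 11, 42, 0, -70, 18] :=
  (ex_p4.mul ex_p2).congr le_rfl (by decide +kernel) fun τ => by ring

theorem ex_iH : Ex 3 11 (fun τ => (Hh τ)⁻¹)
    [1, 4, 14, 40, 105, 252, 574, 1240, 2580, 5180, 10108] := by
  refine ((ex_ip4.mul (ex_ip4.up (by norm_num))).congr le_rfl (by decide +kernel)
    fun _ => rfl).shift fun τ => ?_
  have := qq_ne 24 τ
  have := pe_ne τ
  have := pe_ne (up τ)
  rw [Hh, eta_up, eta_eq, ← qq_24, pow_zero]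
  field_simp

theorem ex_tf : Ex 4 11 tf [1, -6, 9, 10, -30, 0, 11, 42, 0, -70, 18] := by
  refine ((ex_p6.mul (ex_ip6.up (by norm_num))).congr le_rfl (by decide +kernel)
    fun _ => rfl).shift fun τ => ?_
  have := qq_ne 24 τ
  have := pe_ne (up τ)
  rw [tf, eta_up, eta_eq, ← qq_24, pow_zero]
  field_simp

theorem tf_inv (τ : ℍ) : (tf τ)⁻¹ = qq 1 τ ^ 4 * ((pe τ)⁻¹ ^ 6 * pe (up τ) ^ 6) := by
  have := qq_ne 24 τ
  have := pe_ne τ
  have := pe_ne (up τ)
  rw [tf, eta_up, eta_eq, ← qq_24]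
  field_simp

theorem ex_it0 : Ex 0 11 (fun τ => (pe τ)⁻¹ ^ 6 * pe (up τ) ^ 6) [1, 6, 27, 98, 315, 918, 2492,
    6372, 15525, 36280, 81816] :=
  (ex_ip6.mul (ex_p6.up (by norm_num))).congr le_rfl (by decide +kernel) fun _ => rfl

theorem ex_it : Ex 0 11 (fun τ => (tf τ)⁻¹) [0, 0, 0, 0, 1, 6, 27, 98, 315, 918, 2492] :=
  (ex_it0.pad.pad.pad.pad.shift fun τ => by rw [tf_inv]; ring).congr le_rfl (by decide +kernel)
    fun _ => rfl

theorem ex_it4 : Ex 4 11 (fun τ => (tf τ)⁻¹) [0, 0, 0, 0, 0, 0, 0, 0, 1, 6, 27] :=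
  ex_it.pad.pad.pad.pad.congr le_rfl (by decide +kernel) fun _ => rfl

theorem ex_e2 : Ex 0 11 e2 [16, 24, 72, 96, 168, 144, 288, 192, 360, 312, 432] :=
  (((ex_E2.up (by norm_num)).smul 17).add (ex_E2.smul (-1))).congr le_rfl (by decide +kernel)
    fun τ => by rw [e2]; push_cast; ring

theorem ex_aA : Ex 3 11 aA [256, 1792, 9536, 39040, 139200, 438912, 1271872, 3418240, 8666880,
    20864000, 48116608] := by
  have h : Ex 0 11 (fun τ => e2 τ ^ 2)
      [256, 768, 2880, 6528, 15168, 26496, 49536, 72960, 118080, 158592, 235008] :=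
    (ex_e2.mul ex_e2).congr le_rfl (by decide +kernel) fun τ => by ring
  exact (h.mul ex_iH).congr le_rfl (by decide +kernel) fun τ => div_eq_mul_inv _ _

theorem ex_aB : Ex 3 11 aB [290, 1400, 7180, 30320, 114690, 379080, 1149260, 3195920, 8345640,
    20565640, 48374360] :=
  ((ex_E4.add ((ex_E4.up (by norm_num)).smul 289)).mul ex_iH).congr le_rfl (by decide +kernel)
    fun τ => by rw [aB]; push_cast; ring

theorem ex_aC : Ex 3 11 aC [-288, -912, -912, 7200, 54000, 233424, 817488, 2479200, 6854400,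
    17571600, 42531936] :=
  ((ex_E4.add ((ex_E4.up (by norm_num)).smul (-289))).mul ex_iH).congr le_rfl (by decide +kernel)
    fun τ => by rw [aC]; push_cast; ring

theorem ex_aQ : Ex 2 10 aQ
    [1, 23 / 4, 309 / 14, 273 / 4, 375 / 2, 1851 / 4, 2147 / 2, 2337, 4872, 19469 / 2] :=
  Ex.down (((ex_aA.smul (145 / 80640)).add (ex_aB.smul (-128 / 80640))).congr le_rfl
    (by decide +kernel) fun τ => by rw [aQ]; push_cast; ring)

theorem ex_hm : Ex 1 7 hm [1, 0, 7, 14, 29, 50, 92] := by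
  have h : Ex 4 10 (fun τ => aQ τ ^ 2) [1, 23 / 2, 8647 / 112, 10929 / 28, 645633 / 392, 12189 / 2,
      2285189 / 112, 1765123 / 28, 10210395 / 56, 3491060 / 7] :=
    (ex_aQ.mul ex_aQ).congr le_rfl (by decide +kernel) fun τ => by ring
  have h1 := (((((h.add ((ex_tf.mono (by norm_num)).smul (-1))).add
    ((ex_it4.mono (by norm_num)).smul (-4913))).add
    ((ex_aA.pad.mono (by norm_num)).smul (-35 / 512))).add (ex_aQ.pad.pad.smul (6081 / 112))).add
    (Ex.const 10 (-324001 / 1568)).pad.pad.pad.pad).smul (64 / 2601)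
  exact (h1.congr le_rfl (by decide +kernel) fun τ => by rw [hm]; push_cast; ring).down.down.down

theorem ex_an : Ex 2 5 an [1, 1, -6, -33, -117] := by
  have h : Ex 4 7 (fun τ => hm τ * aC τ) [-288, -912, -2928, -3216, 26496, 230208, 1197744] :=
    (ex_hm.mul (ex_aC.mono (by norm_num))).congr le_rfl (by decide +kernel) fun _ => rfl
  have h1 := ((((h.smul (1 / 288)).add (ex_tf.mono (by norm_num))).add
    ((ex_it4.mono (by norm_num)).smul (-4913))).add
    ((ex_aC.pad.mono (by norm_num)).smul (-55 / 1728))).smul (36 / 1003)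
  exact (h1.congr le_rfl (by decide +kernel) fun τ => by rw [an]; push_cast; ring).down.down

theorem ex_h1 : Ex 1 5 hm [1, 0, 7, 14, 29] :=
  ex_hm.congr (by norm_num) (by decide +kernel) fun _ => rfl

theorem ex_h2 : Ex 2 5 (fun τ => hm τ ^ 2) [1, 0, 14, 28, 107] :=
  (ex_h1.mul ex_h1).congr le_rfl (by decide +kernel) fun τ => by ring

theorem ex_h3 : Ex 3 5 (fun τ => hm τ ^ 3) [1, 0, 21, 42, 234] :=
  (ex_h2.mul ex_h1).congr le_rfl (by decide +kernel) fun τ => by ring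

theorem ex_h4 : Ex 4 5 (fun τ => hm τ ^ 4) [1, 0, 28, 56, 410] :=
  (ex_h2.mul ex_h2).congr le_rfl (by decide +kernel) fun τ => by ring

theorem zero_of (hL : LiouStmt) (H : Ex 4 5 F [0, 0, 0, 0, 0]) (hi : Inv F) {ε : ℂ}
    (hw : ∀ τ, F (ww τ) = ε * F τ) (τ : ℍ) : F τ = 0 := by
  have H0 := H.down.down.down.down
  obtain ⟨c, hc⟩ := hL F H.hol hi H0.bdd (by
    rw [funext hw]
    exact (H0.bdd.const_mul_left ε))
  have h1 := H0.tendsto
  rw [funext hc] at h1
  rw [hc]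
  simpa using tendsto_nhds_unique tendsto_const_nhds h1

theorem rel1 (hL : LiouStmt) (hE : EtaStmt) (τ : ℍ) :
    an τ ^ 2 = hm τ ^ 4 + 2 * hm τ ^ 3 - 39 * hm τ ^ 2 - 176 * hm τ - 212 := by
  have h := (((((ex_an.mul ex_an).add (ex_h4.smul (-1))).add (ex_h3.pad.smul (-2))).add
    (ex_h2.pad.pad.smul 39)).add (ex_h1.pad.pad.pad.smul 176)).add
    (Ex.const 5 212).pad.pad.pad.pad
  have := zero_of hL (h.congr le_rfl (by decide +kernel) fun _ => rfl)
    (fun γ hγ τ => by simp only [inv_hm hE γ hγ, inv_an hE γ hγ]) (ε := 1)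
    (fun τ => by rw [hm_ww, an_ww]; ring) τ
  push_cast at this
  linear_combination this

theorem rel2 (hL : LiouStmt) (hE : EtaStmt) (τ : ℍ) :
    tf τ + 4913 / tf τ = hm τ ^ 4 - 6 * hm τ ^ 3 - 19 * hm τ ^ 2 + 80 * hm τ + 78 := by
  have h := ((((((ex_tf.mono (by norm_num)).add ((ex_it4.mono (by norm_num)).smul 4913)).add
    (ex_h4.smul (-1))).add (ex_h3.pad.smul 6)).add
    (ex_h2.pad.pad.smul 19)).add (ex_h1.pad.pad.pad.smul (-80))).add
    (Ex.const 5 (-78)).pad.pad.pad.pad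
  have := zero_of hL (h.congr le_rfl (by decide +kernel) fun _ => rfl)
    (fun γ hγ τ => by simp only [inv_hm hE γ hγ, inv_tf hE γ hγ]) (ε := 1)
    (fun τ => by rw [hm_ww, tf_ww, inv_div]; push_cast; ring) τ
  push_cast at this
  linear_combination this

theorem rel3 (hL : LiouStmt) (hE : EtaStmt) (τ : ℍ) :
    tf τ - 4913 / tf τ = an τ * (hm τ ^ 2 - 7 * hm τ + 8) := by
  have h0 : Ex 2 5 (fun τ => hm τ ^ 2 - 7 * hm τ + 8) [1, -7, 22, -21, 9] :=
    ((ex_h2.add (ex_h1.pad.smul (-7))).add (Ex.const 5 8).pad.pad).congr le_rfl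
      (by decide +kernel) fun τ => by push_cast; ring
  have h := ((ex_tf.mono (by norm_num)).add ((ex_it4.mono (by norm_num)).smul (-4913))).add
    ((ex_an.mul h0).smul (-1))
  have := zero_of hL (h.congr le_rfl (by decide +kernel) fun _ => rfl)
    (fun γ hγ τ => by simp only [inv_hm hE γ hγ, inv_tf hE γ hγ, inv_an hE γ hγ]) (ε := -1)
    (fun τ => by rw [hm_ww, tf_ww, an_ww, inv_div]; push_cast; ring) τ
  push_cast at this
  linear_combination this

end Pool.Agent.Lib.MP_d6ddbd_nt.X
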