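import Pool.Agent.Lib.MP_d6ddbd_nt.X.Ser

/-!
Transformation laws of the functions on `X₀(17)`.
-/

set_option autoImplicit false

open UpperHalfPlane Filter Topology
open scoped MatrixGroups
open Pool.Agent.Lib.MP_9177b7_ag.CM Pool.Agent.Lib.MP_9177b7_ag.CM.Norm
open Pool.Agent.Lib.MP_d6ddbd_nt.K
open ModularForm EisensteinSeries

noncomputable section

namespace Pool.Agent.Lib.MP_d6ddbd_nt.X

theorem coe_up' (τ : ℍ) : ((up τ : ℍ) : ℂ) = 17 * τ := by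
  rw [coe_up (by norm_num)]; norm_num

/-- The factor of automorphy. -/
abbrev fa (γ : SL(2, ℤ)) (τ : ℍ) : ℂ := (γ 1 0 : ℤ) * (τ : ℂ) + (γ 1 1 : ℤ)

theorem up_smul {γ : SL(2, ℤ)} (h : γ ∈ G0) : ∃ δ : SL(2, ℤ), γ 1 0 = 17 * δ 1 0 ∧
    ∀ τ : ℍ, up (γ • τ) = δ • up τ ∧ fa δ (up τ) = fa γ τ := by
  obtain ⟨c, hc⟩ : (17 : ℤ) ∣ γ 1 0 :=
    (ZMod.intCast_zmod_eq_zero_iff_dvd _ 17).1 (CongruenceSubgroup.Gamma0_mem.1 h)
  have h2 := γ.det_coe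
  rw [Matrix.det_fin_two] at h2
  have h3 : γ 0 0 * γ 1 1 - γ 0 1 * γ 1 0 = 1 := h2
  let δ : SL(2, ℤ) := ⟨!![γ 0 0, 17 * γ 0 1; c, γ 1 1], by
    rw [Matrix.det_fin_two_of]; rw [hc] at h3; linear_combination h3⟩
  have e : ∀ τ : ℍ, fa δ (up τ) = fa γ τ := fun τ => by
    change (c : ℂ) * _ + (γ 1 1 : ℤ) = _
    rw [coe_up', fa, hc]; push_cast; ring
  refine ⟨δ, hc, fun τ => ⟨?_, e τ⟩⟩
  apply UpperHalfPlane.ext
  rw [coe_up', Lat.coe_smul, Lat.coe_smul δ]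
  change _ = (((γ 0 0 : ℤ) : ℂ) * _ + ((17 * γ 0 1 : ℤ) : ℂ)) / fa δ (up τ)
  rw [e, coe_up', mul_div_assoc']
  push_cast
  ring

theorem form_smul {k : ℤ} (f : ModularForm 𝒮ℒ k) (γ : SL(2, ℤ)) (τ : ℍ) :
    f (γ • τ) = fa γ τ ^ k * f τ := by
  have h2 := γ.det_coe
  rw [Matrix.det_fin_two] at h2
  exact Norm.trans f _ _ _ _ h2 τ _ (Lat.coe_smul γ τ)

theorem E4_smul (γ : SL(2, ℤ)) (τ : ℍ) : E₄ (γ • τ) = fa γ τ ^ 4 * E₄ τ := by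
  exact_mod_cast form_smul E₄ γ τ

theorem E6_smul (γ : SL(2, ℤ)) (τ : ℍ) : E₆ (γ • τ) = fa γ τ ^ 6 * E₆ τ := by
  exact_mod_cast form_smul E₆ γ τ

theorem Delta_smul (γ : SL(2, ℤ)) (τ : ℍ) :
    discriminant (γ • τ) = fa γ τ ^ 12 * discriminant τ := by
  exact_mod_cast form_smul Kron.DD γ τ

theorem E2_smul : ∃ κ : ℂ, ∀ (γ : SL(2, ℤ)) (τ : ℍ),
    E2 (γ • τ) = fa γ τ ^ 2 * E2 τ - κ * (γ 1 0 : ℤ) * fa γ τ := by
  refine ⟨1 / (2 * riemannZeta 2) * (2 * Real.pi * Complex.I), fun γ τ => ?_⟩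
  have h := congrFun (E2_slash_action γ) τ
  have e : denom γ τ = fa γ τ := by simp [denom]
  have h0 : fa γ τ ≠ 0 := Lat.denom_ne γ τ
  rw [SL_slash_apply, Pi.sub_apply, Pi.smul_apply, D2, e, smul_eq_mul, zpow_neg, zpow_ofNat,
    ← div_eq_mul_inv, div_eq_iff (pow_ne_zero _ h0)] at h
  rw [h]
  field_simp

theorem e2_smul {γ : SL(2, ℤ)} (h : γ ∈ G0) (τ : ℍ) : e2 (γ • τ) = fa γ τ ^ 2 * e2 τ := by
  obtain ⟨δ, h1, h2⟩ := up_smul h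
  obtain ⟨κ, h3⟩ := E2_smul
  rw [e2, e2, (h2 τ).1, h3, h3, (h2 τ).2, h1]
  push_cast
  ring

theorem up_form {k : ℤ} (f : ModularForm 𝒮ℒ k) {γ : SL(2, ℤ)} (h : γ ∈ G0) (τ : ℍ) :
    f (up (γ • τ)) = fa γ τ ^ k * f (up τ) := by
  obtain ⟨δ, -, h2⟩ := up_smul h
  rw [(h2 τ).1, form_smul, (h2 τ).2]

theorem E4_up {γ : SL(2, ℤ)} (h : γ ∈ G0) (τ : ℍ) :
    E₄ (up (γ • τ)) = fa γ τ ^ 4 * E₄ (up τ) := by
  exact_mod_cast up_form E₄ h τ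

theorem E6_up {γ : SL(2, ℤ)} (h : γ ∈ G0) (τ : ℍ) :
    E₆ (up (γ • τ)) = fa γ τ ^ 6 * E₆ (up τ) := by
  exact_mod_cast up_form E₆ h τ

theorem eta_ne (τ : ℍ) : eta τ ≠ 0 := eta_ne_zero τ.2

theorem eta_up_ne (τ : ℍ) : eta (17 * (τ : ℂ)) ≠ 0 := coe_up' τ ▸ eta_ne (up τ)

theorem tf_ne (τ : ℍ) : tf τ ≠ 0 := pow_ne_zero _ (div_ne_zero (eta_ne τ) (eta_up_ne τ))

theorem Hh_ne (τ : ℍ) : Hh τ ≠ 0 := pow_ne_zero _ (mul_ne_zero (eta_ne τ) (eta_up_ne τ))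

theorem tf_pow (τ : ℍ) : tf τ ^ 4 = discriminant τ / discriminant (up τ) := by
  rw [tf, discriminant, discriminant, coe_up', ← pow_mul, div_pow]

/-- Invariance under `Γ₀(17)`. -/
def Inv (f : ℍ → ℂ) : Prop := ∀ γ ∈ G0, ∀ τ : ℍ, f (γ • τ) = f τ

theorem inv_tf (h : EtaStmt) : Inv tf := fun γ hγ τ => (h γ hγ τ).1

theorem inv_aA (h : EtaStmt) : Inv aA := fun γ hγ τ => by
  have h0 : fa γ τ ≠ 0 := Lat.denom_ne γ τ
  rw [aA, aA, e2_smul hγ, (h γ hγ τ).2, mul_pow, ← pow_mul, mul_div_mul_left _ _ (pow_ne_zero _ h0)]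

theorem inv_aB (h : EtaStmt) : Inv aB := fun γ hγ τ => by
  have h0 : fa γ τ ≠ 0 := Lat.denom_ne γ τ
  rw [aB, aB, E4_smul, E4_up hγ, (h γ hγ τ).2, mul_left_comm, ← mul_add,
    mul_div_mul_left _ _ (pow_ne_zero _ h0)]

theorem inv_aC (h : EtaStmt) : Inv aC := fun γ hγ τ => by
  have h0 : fa γ τ ≠ 0 := Lat.denom_ne γ τ
  rw [aC, aC, E4_smul, E4_up hγ, (h γ hγ τ).2, mul_left_comm, ← mul_sub,
    mul_div_mul_left _ _ (pow_ne_zero _ h0)]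

theorem inv_hm (h : EtaStmt) : Inv hm := fun γ hγ τ => by
  simp only [hm, aQ, inv_tf h γ hγ, inv_aA h γ hγ, inv_aB h γ hγ]

theorem inv_an (h : EtaStmt) : Inv an := fun γ hγ τ => by
  simp only [an, inv_tf h γ hγ, inv_hm h γ hγ, inv_aC h γ hγ]

theorem inv_xf (h : EtaStmt) : Inv xf := fun γ hγ τ => by
  simp only [xf, inv_hm h γ hγ, inv_an h γ hγ]

/-! ### The Fricke involution -/

theorem fa_S (τ : ℍ) : fa ModularGroup.S τ = τ := by simp [fa, ModularGroup.S]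

theorem coe_S (τ : ℍ) : ((ModularGroup.S • τ : ℍ) : ℂ) = -1 / τ := by
  rw [Lat.coe_smul]; simp [ModularGroup.S]

theorem coe_ww (τ : ℍ) : ((ww τ : ℍ) : ℂ) = -1 / (17 * τ) := by rw [ww, coe_S, coe_up']

theorem up_ww (τ : ℍ) : up (ww τ) = ModularGroup.S • τ := by
  apply UpperHalfPlane.ext
  have := τ.ne_zero
  rw [coe_up', coe_ww, coe_S]
  field_simp

theorem ww_ww (τ : ℍ) : ww (ww τ) = τ := by
  apply UpperHalfPlane.ext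
  have := τ.ne_zero
  rw [coe_ww, coe_ww]
  field_simp

theorem e2_ww (τ : ℍ) : e2 (ww τ) = -17 * (τ : ℂ) ^ 2 * e2 τ := by
  obtain ⟨κ, h3⟩ := E2_smul
  rw [e2, e2, up_ww, ww, h3, h3, fa_S, fa_S, coe_up']
  simp only [ModularGroup.S, Matrix.SpecialLinearGroup.coe_mk, Matrix.of_apply, Matrix.cons_val',
    Matrix.cons_val_zero, Matrix.cons_val_one, Matrix.cons_val_fin_one, Int.cast_one]
  ring

theorem form_ww {k : ℤ} (f : ModularForm 𝒮ℒ k) (τ : ℍ) :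
    f (ww τ) = (17 * (τ : ℂ)) ^ k * f (up τ) ∧ f (up (ww τ)) = (τ : ℂ) ^ k * f τ := by
  rw [up_ww, ww, form_smul, form_smul, fa_S, fa_S, coe_up']
  exact ⟨rfl, rfl⟩

theorem eta_S (τ : ℍ) : ∃ s : ℂ, s ^ 2 = -Complex.I * τ ∧ eta (-1 / (τ : ℂ)) = s * eta τ := by
  have h := eta_comp_eq_csqrt_I_inv τ.2
  have h1 : ∀ z : ℂ, Complex.sqrt z ^ 2 = z := fun z => by
    rw [Complex.sqrt]; exact_mod_cast Complex.cpow_nat_inv_pow z two_ne_zero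
  refine ⟨(Complex.sqrt Complex.I)⁻¹ * Complex.sqrt τ, ?_, by simpa [mul_assoc] using h⟩
  rw [mul_pow, inv_pow, h1, h1, Complex.inv_I]

theorem eta_ww (τ : ℍ) : ∃ s s' : ℂ, s ^ 2 = -Complex.I * τ ∧ s' ^ 2 = 17 * s ^ 2 ∧
    eta (ww τ) = s' * eta (17 * (τ : ℂ)) ∧ eta (17 * ((ww τ : ℍ) : ℂ)) = s * eta τ := by
  obtain ⟨s, h1, h2⟩ := eta_S τ
  obtain ⟨s', h3, h4⟩ := eta_S (up τ)
  rw [coe_up'] at h3 h4
  refine ⟨s, s', h1, by rw [h1, h3]; ring, by rw [coe_ww, h4], ?_⟩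
  rw [← coe_up', up_ww, coe_S, h2]

theorem Hh_ww (τ : ℍ) : Hh (ww τ) = 289 * (τ : ℂ) ^ 4 * Hh τ := by
  obtain ⟨s, s', h1, h2, h3, h4⟩ := eta_ww τ
  have e : (s' * s) ^ 4 = 289 * (τ : ℂ) ^ 4 := by
    rw [show (s' * s) ^ 4 = (s' ^ 2) ^ 2 * (s ^ 2) ^ 2 by ring, h2, h1]
    linear_combination 289 * (τ : ℂ) ^ 4 * Complex.I_pow_four
  rw [Hh, Hh, h3, h4, ← e]
  ring

theorem tf_ww (τ : ℍ) : tf (ww τ) = 4913 / tf τ := by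
  obtain ⟨s, s', h1, h2, h3, h4⟩ := eta_ww τ
  have h0 : s ≠ 0 := fun e => by
    rw [e] at h1
    exact mul_ne_zero (neg_ne_zero.2 Complex.I_ne_zero) τ.ne_zero (by rw [← h1]; simp)
  have e : s' ^ 6 = 4913 * s ^ 6 := by
    rw [show s' ^ 6 = (s' ^ 2) ^ 3 by ring, h2]; ring
  have h5 := eta_ne τ
  have h6 := eta_up_ne τ
  rw [tf, tf, h3, h4, div_pow, mul_pow, e]
  field_simp

theorem aA_ww (τ : ℍ) : aA (ww τ) = aA τ := by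
  have := τ.ne_zero
  have := Hh_ne τ
  rw [aA, aA, e2_ww, Hh_ww]
  field_simp
  ring

theorem aB_ww (τ : ℍ) : aB (ww τ) = aB τ := by
  have := τ.ne_zero
  have := Hh_ne τ
  rw [aB, aB, (form_ww E₄ τ).1, (form_ww E₄ τ).2, Hh_ww]
  field_simp
  ring

theorem aC_ww (τ : ℍ) : aC (ww τ) = -aC τ := by
  have := τ.ne_zero
  have := Hh_ne τ
  rw [aC, aC, (form_ww E₄ τ).1, (form_ww E₄ τ).2, Hh_ww]
  field_simp
  ring

theorem tf_ww' (τ : ℍ) : 4913 / tf (ww τ) = tf τ := by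
  have := tf_ne τ
  rw [tf_ww]
  field_simp

theorem hm_ww (τ : ℍ) : hm (ww τ) = hm τ := by
  rw [hm, hm, aQ, aQ, aA_ww, aB_ww, tf_ww', tf_ww, add_comm (tf τ)]

theorem an_ww (τ : ℍ) : an (ww τ) = -an τ := by
  rw [an, an, hm_ww, aC_ww, tf_ww', tf_ww]
  ring

end Pool.Agent.Lib.MP_d6ddbd_nt.X
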