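import Pool.Agent.Lib.MP_d6ddbd_nt.X.Has

/-!
Elementary symmetric functions under a valuation, and level one forms as polynomials in `j`.
-/

set_option autoImplicit false

open UpperHalfPlane PowerSeries
open scoped MatrixGroups
open Pool.Agent.Lib.MP_9177b7_ag.CM Pool.Agent.Lib.MP_9177b7_ag.CM.Kron

noncomputable section

namespace Pool.Agent.Lib.MP_d6ddbd_nt.X.NewAux

theorem esymm_cons {R : Type} [CommRing R] (a : R) (S : Multiset R) (r : ℕ) :
    (a ::ₘ S).esymm (r + 1) = S.esymm (r + 1) + a * S.esymm r := by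
  simp [Multiset.esymm, Multiset.powersetCard_cons, Multiset.sum_map_mul_left]

theorem esymm_zero {R : Type} [CommRing R] (S : Multiset R) : S.esymm 0 = 1 := by
  simp [Multiset.esymm]

theorem esymm_big {R : Type} [CommRing R] {S : Multiset R} {r : ℕ} (h : S.card < r) :
    S.esymm r = 0 := by
  simp [Multiset.esymm, Multiset.powersetCard_eq_empty _ h]

theorem esymm_top {R : Type} [CommRing R] (S : Multiset R) : S.esymm S.card = S.prod := by
  induction S using Multiset.induction_on with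
  | empty => simp [esymm_zero]
  | cons a S ih =>
    rw [Multiset.card_cons, esymm_cons, esymm_big (Nat.lt_succ_self _), ih, zero_add,
      Multiset.prod_cons]

theorem esymm_mul {R : Type} [CommRing R] (c : R) (S : Multiset R) (r : ℕ) :
    (S.map (c * ·)).esymm r = c ^ r * S.esymm r := (Multiset.pow_smul_esymm c r S).symm

variable (O : ValuationSubring ℂ)

theorem down {w : ℂ} {S : Multiset ℂ} {B : O.ValueGroup} {n : ℕ} (hw : O.valuation w ≤ 1)
    (h : ∀ r ≤ n, O.valuation ((w ::ₘ S).esymm r) ≤ B) :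
    ∀ r ≤ n, O.valuation (S.esymm r) ≤ B := by
  intro r
  induction r with
  | zero => simpa [esymm_zero] using h 0 n.zero_le
  | succ r ih =>
    intro hr
    rw [eq_sub_of_add_eq (esymm_cons w S r).symm]
    refine Valuation.map_sub_le _ (h _ hr) ?_
    rw [map_mul]
    exact (mul_le_of_le_one_left' hw).trans (ih (by omega))

theorem polygon {w w' j c : ℂ} {S : Multiset ℂ} (hS : S.card = 16) (h0 : w ≠ 0)
    (hw : O.valuation w ≤ 1) (hw' : O.valuation w' ≤ 1)
    (h1 : ∀ r ≤ 16, O.valuation ((w ::ₘ w' ::ₘ S).esymm r) ≤ max 1 (O.valuation j) ^ 15)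
    (h2 : O.valuation ((w ::ₘ w' ::ₘ S).esymm 17 - j ^ 16) ≤ max 1 (O.valuation j) ^ 15)
    (h3 : (w ::ₘ w' ::ₘ S).esymm 18 = c) : c / w ∈ O := by
  have g := down O hw h1 16 le_rfl
  have f := down O hw' (down O hw h1) 16 le_rfl
  have e1 : (w' ::ₘ S).esymm 17 = w' * S.esymm 16 := by
    rw [esymm_cons, esymm_big (by omega), zero_add]
  have g' : O.valuation ((w' ::ₘ S).esymm 17) ≤ max 1 (O.valuation j) ^ 15 := by
    rw [e1, map_mul]
    exact (mul_le_of_le_one_left' hw').trans f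
  have h4 : O.valuation j ^ 16 ≤ max 1 (O.valuation j) ^ 15 := by
    rw [← map_pow, ← sub_sub_cancel ((w ::ₘ w' ::ₘ S).esymm 17) (j ^ 16)]
    refine Valuation.map_sub_le _ ?_ h2
    rw [esymm_cons]
    refine Valuation.map_add_le _ g' ?_
    rw [map_mul]
    exact (mul_le_of_le_one_left' hw).trans g
  have h5 : O.valuation j ≤ 1 := by
    by_contra h5
    rw [not_le] at h5
    rw [max_eq_right h5.le] at h4
    exact absurd h4 (not_le.2 (pow_lt_pow_right₀ h5 (by norm_num)))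
  rw [max_eq_left h5, one_pow] at g'
  rwa [← h3, esymm_cons, esymm_big (by simp [hS]), zero_add, mul_div_cancel_left₀ _ h0,
    ← O.valuation_le_one_iff]

theorem step {A : Subring ℂ} (h6 : (6 : ℂ)⁻¹ ∈ A) {m : ℕ}
    (f : ModularForm 𝒮ℒ (12 * ((m + 1 : ℕ) : ℤ))) (hf : ∀ n, coeff n (qExpansion 1 f) ∈ A) :
    ∃ g : ModularForm 𝒮ℒ (12 * (m : ℤ)), (∀ n, coeff n (qExpansion 1 g) ∈ A) ∧
      (∀ τ : ℍ, f τ / DD τ ^ (m + 1) =
        jH τ ^ (m + 1) * coeff 0 (qExpansion 1 f) + g τ / DD τ ^ m) ∧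
      (coeff 0 (qExpansion 1 f) = 0 → qExpansion 1 f = qExpansion 1 DD * qExpansion 1 g) := by
  set c := coeff 0 (qExpansion 1 f) with hc
  let F' : ModularForm 𝒮ℒ (12 * ((m + 1 : ℕ) : ℤ)) :=
    ModularForm.mcast (by ring) (FF.pow (m + 1))
  have hF' : qExpansion 1 F' = qExpansion 1 FF ^ (m + 1) := by
    rw [← q_pow]
    rfl
  let g : ModularForm 𝒮ℒ (12 * ((m + 1 : ℕ) : ℤ)) := f - c • F'
  have hg : qExpansion 1 g = qExpansion 1 f - C c * qExpansion 1 FF ^ (m + 1) := by
    rw [← hF', ← q_smul, ← q_sub]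
  have hg0 : coeff 0 (qExpansion 1 g) = 0 := by
    rw [hg, map_sub, coeff_C_mul, ← hc, coeff_zero_eq_constantCoeff_apply, map_pow,
      coeff_zero_FF, one_pow, mul_one, sub_self]
  have hgP : ∀ n, coeff n (qExpansion 1 g) ∈ A := by
    intro n
    rw [hg, map_sub, coeff_C_mul, q_FF, ← map_pow]
    exact A.sub_mem (hf n) (A.mul_mem (hf 0) (coeff_int_mem A _ n))
  let f' : ModularForm 𝒮ℒ (12 * (m : ℤ)) :=
    ModularForm.mcast (by push_cast; ring)
      (CuspForm.discriminantEquiv (ModularForm.toCuspForm g hg0))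
  have hq : qExpansion 1 g = qExpansion 1 DD * qExpansion 1 f' :=
    ModularForm.qExpansion_eq_qExpansion_discriminant_mul g hg0
  refine ⟨f', div_mem (P := A.toAddSubgroup) (fun _ ha _ hx => A.mul_mem ha hx) (coeff_DD_mem h6)
    coeff_zero_DD coeff_one_DD (fun n => hq ▸ hgP n), fun τ => ?_, fun h0 => ?_⟩
  · have h2 : f' τ = (f τ - c * F' τ) / ModularForm.discriminant τ := rfl
    have h3 : F' τ = (ModularForm.E₄ τ ^ 3) ^ (m + 1) := by
      rw [← FF_apply]
      simp only [F', ModularForm.coe_mcast, ModularForm.coe_pow, Pi.pow_apply]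
    have hΔ := ModularForm.discriminant_ne_zero τ
    rw [h2, h3, jH, div_pow, DD_apply]
    field_simp
    ring
  · rw [← hq, hg, h0, map_zero, zero_mul, sub_zero]

theorem const (f : ModularForm 𝒮ℒ (12 * ((0 : ℕ) : ℤ))) (τ : ℍ) :
    f τ = coeff 0 (qExpansion 1 f) := by
  let f0 : ModularForm 𝒮ℒ 0 := ModularForm.mcast (by simp) f
  obtain ⟨c, hc⟩ := ModularFormClass.levelOne_weight_zero_const f0
  have h : (f : ℍ → ℂ) = fun _ => c := hc
  rw [hq_unique one_pos (Norm.HQ_form f) (h ▸ hq_const 1 c), coeff_zero_C, h]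

theorem bound (h6 : (6 : ℂ)⁻¹ ∈ O) (τ : ℍ) (m : ℕ) : ∀ f : ModularForm 𝒮ℒ (12 * (m : ℤ)),
    (∀ n, coeff n (qExpansion 1 f) ∈ O) →
      O.valuation (f τ / DD τ ^ m) ≤ max 1 (O.valuation (jH τ)) ^ m := by
  induction m with
  | zero =>
    intro f hf
    rw [pow_zero, pow_zero, div_one, const f]
    exact (O.valuation_le_one_iff _).2 (hf 0)
  | succ m ih =>
    intro f hf
    obtain ⟨g, h1, h2, -⟩ := step (A := O.toSubring) h6 f hf
    rw [h2]
    refine Valuation.map_add_le _ ?_ ((ih g h1).trans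
      (pow_le_pow_right₀ (le_max_left _ _) m.le_succ))
    rw [map_mul, map_pow]
    exact (mul_le_of_le_one_right' ((O.valuation_le_one_iff _).2 (hf 0))).trans
      (pow_le_pow_left' (le_max_right _ _) _)

theorem DD_eq_X : ∃ D : ℂ⟦X⟧, qExpansion 1 DD = X * D ∧ constantCoeff D = 1 := by
  obtain ⟨D, hD⟩ := X_dvd_iff.2 ((coeff_zero_eq_constantCoeff_apply _).symm.trans coeff_zero_DD)
  refine ⟨D, hD, ?_⟩
  rw [← coeff_one_DD, hD, coeff_succ_X_mul, coeff_zero_eq_constantCoeff_apply]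

theorem top (τ : ℍ) (m : ℕ) : ∀ (f : ModularForm 𝒮ℒ (12 * (m : ℤ))) (b : ℂ⟦X⟧),
    qExpansion 1 f = X ^ m * b → f τ / DD τ ^ m = constantCoeff b := by
  induction m with
  | zero =>
    intro f b h
    rw [const f, h]
    simp
  | succ m ih =>
    intro f b h
    obtain ⟨g, -, h2, h3⟩ := step (A := ⊤) trivial f fun _ => trivial
    have h0 : coeff 0 (qExpansion 1 f) = 0 := by simp [h]
    obtain ⟨D, hD, h1⟩ := DD_eq_X
    have h4 := PowerSeries.mul_inv_cancel D (h1 ▸ one_ne_zero)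
    have h5 := h3 h0
    rw [h, hD, pow_succ', mul_assoc, mul_assoc, mul_right_inj' X_ne_zero] at h5
    rw [h2, h0, mul_zero, zero_add, ih g (b * D⁻¹) (by
      linear_combination -D⁻¹ * h5 - qExpansion 1 g * h4)]
    simp [h1]

end Pool.Agent.Lib.MP_d6ddbd_nt.X.NewAux
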