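import Pool.Agent.Lib.MP_d6ddbd_nt.X.Cur

/-!
Fibres of the parametrisation, and its Galois equivariance.
-/

set_option autoImplicit false

open UpperHalfPlane Filter Topology Pointwise
open scoped MatrixGroups
open Pool.Agent.Lib.MP_9177b7_ag.CM Pool.Agent.Lib.MP_9177b7_ag.CM.Norm
open Pool.Agent.Lib.MP_d6ddbd_nt.K
open ModularForm

noncomputable section

namespace Pool.Agent.Lib.MP_d6ddbd_nt.X

variable {F G : ℍ → ℂ}

/-- `F` has a rational expansion. -/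
def Rq (F : ℍ → ℂ) : Prop := ∃ m, Ex m 0 F []

theorem Ex.rq {m N : ℕ} {l : List ℚ} (H : Ex m N F l) : Rq F :=
  ⟨m, H.congr (Nat.zero_le _) rfl fun _ => rfl⟩

theorem Rq.mul (H : Rq F) (K : Rq G) : Rq fun τ => F τ * G τ :=
  (H.choose_spec.mul K.choose_spec).rq

theorem Rq.pow (H : Rq F) (n : ℕ) : Rq fun τ => F τ ^ n := by
  induction n with
  | zero => simpa using (Ex.const 0 1).rq
  | succ n ih => simpa [pow_succ] using ih.mul H

theorem Rq.smul (H : Rq F) (c : ℚ) (e : ∀ τ, G τ = c * F τ) : Rq G := by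
  rw [funext e]; exact (H.choose_spec.smul c).rq

theorem Delta_eq (τ : ℍ) : discriminant τ = qq 1 τ * pe τ ^ 24 := by
  rw [discriminant, eta_eq, mul_pow, qq_24]

theorem ex_ip24 : Ex 0 0 (fun τ => (pe τ)⁻¹ ^ 24) [] :=
  (((ex_ip6.mul ex_ip6).mul ex_ip6).mul ex_ip6).congr (Nat.zero_le _) rfl fun τ => by ring

theorem rq_iD : Rq fun τ => (discriminant τ)⁻¹ := by
  refine ⟨1, ex_ip24.shift fun τ => ?_⟩
  have := qq_ne 1 τ
  rw [Delta_eq]
  field_simp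

theorem rq_iDu : Rq fun τ => (discriminant (up τ))⁻¹ := by
  refine Ex.rq (m := 17) ((ex_ip24.up (by norm_num)).shift fun τ => ?_)
  have := qq_ne 1 τ
  rw [Delta_eq, qq_up]
  field_simp

def A4 (τ : ℍ) : ℂ := E₄ (up τ) * E₄ τ ^ 2 / discriminant τ

def A6 (τ : ℍ) : ℂ := E₆ (up τ) * E₆ τ / discriminant τ

theorem Delta_ww (τ : ℍ) : discriminant (ww τ) = (17 * (τ : ℂ)) ^ 12 * discriminant (up τ) := by
  exact_mod_cast (form_ww Kron.DD τ).1

/-- A modular function with a rational expansion. -/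
def Good (F : ℍ → ℂ) : Prop := MF G0 F ∧ ∃ c, QE 1 F c ∧ RatS c

theorem good (hC : CosStmt) (H : Rq F) (K : Rq fun τ => F (ww τ)) (hi : Inv F) : Good F := by
  obtain ⟨m, H⟩ := H
  obtain ⟨c, h1, h2, -⟩ := Ex.lead (l := []) H
  exact ⟨hC.2.2.2.2.2.2.2 F H.hol hi H.gro K.choose_spec.gro, c, h1, h2⟩

theorem good_j (hC : CosStmt) : Good jH := by
  have h4 := (ex_E4.up (by norm_num)).rq
  refine good hC (((ex_E4.rq.pow 3).mul rq_iD).smul 1 fun τ => ?_)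
    (((h4.pow 3).mul rq_iDu).smul 1 fun τ => ?_) fun γ _ τ => Eis.jH_smul γ τ
  · rw [jH]; push_cast; ring
  · rw [ww, Eis.jH_smul, jH]; push_cast; ring

theorem good_A4 (hC : CosStmt) : Good A4 := by
  have h4 := (ex_E4.up (by norm_num)).rq
  refine good hC (((h4.mul (ex_E4.rq.pow 2)).mul rq_iD).smul 1 fun τ => ?_)
    (((ex_E4.rq.mul (h4.pow 2)).mul rq_iDu).smul (1 / 17 ^ 4) fun τ => ?_) fun γ hγ τ => ?_
  · rw [A4]; push_cast; ring
  · have := τ.ne_zero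
    rw [A4, (form_ww E₄ τ).1, (form_ww E₄ τ).2, Delta_ww]
    push_cast
    field_simp
  · have h0 : fa γ τ ≠ 0 := Lat.denom_ne γ τ
    rw [A4, A4, E4_up hγ, E4_smul, Delta_smul]
    field_simp

theorem good_A6 (hC : CosStmt) : Good A6 := by
  have h6 := (ex_E6.up (by norm_num)).rq
  refine good hC (((h6.mul ex_E6.rq).mul rq_iD).smul 1 fun τ => ?_)
    (((ex_E6.rq.mul h6).mul rq_iDu).smul (1 / 17 ^ 6) fun τ => ?_) fun γ hγ τ => ?_
  · rw [A6]; push_cast; ring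
  · have := τ.ne_zero
    rw [A6, (form_ww E₆ τ).1, (form_ww E₆ τ).2, Delta_ww]
    push_cast
    field_simp
  · have h0 : fa γ τ ≠ 0 := Lat.denom_ne γ τ
    rw [A6, A6, E6_up hγ, E6_smul, Delta_smul]
    field_simp

theorem sep {z w : ℍ} (h0 : jH z ≠ 0) (h1 : jH z ≠ 1728) (e : jH z = jH w) (e4 : A4 w = A4 z)
    (e6 : A6 w = A6 z) : ∃ γ ∈ G0, w = γ • z := by
  obtain ⟨γ, rfl⟩ := hyp.jH_eq_iff.1 e
  refine ⟨γ, ?_, rfl⟩
  have hJ : fa γ z ≠ 0 := Lat.denom_ne γ z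
  have hD := discriminant_ne_zero z
  have n4 : E₄ z ≠ 0 := fun h => h0 (by simp [jH, h])
  have n6 : E₆ z ≠ 0 := fun h => h1 (by
    rw [jH, div_eq_iff hD, discriminant_eq_E₄_cube_sub_E₆_sq, h]
    ring)
  rw [A4, A4, E4_smul, Delta_smul] at e4
  rw [A6, A6, E6_smul, Delta_smul] at e6
  field_simp at e4 e6
  have hc : Conj (RingHom.id ℂ) (sp (up (γ • z)) 1) ((fa γ z)⁻¹ • sp (up z) 1) := by
    refine ⟨Lat.l1 _, Lat.l2 _ _ (Lat.l1 _) (inv_ne_zero hJ), ?_, ?_⟩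
    · rw [hyp.g2_smul _ (inv_ne_zero hJ), Eis.g2_eq, Eis.g2_eq, e4]
      simp only [RingHom.id_apply, inv_pow, inv_inv]
      ring
    · rw [hyp.g3_smul _ (inv_ne_zero hJ), Eis.g3_eq, Eis.g3_eq, e6]
      simp only [RingHom.id_apply, inv_pow, inv_inv]
      ring
  have h2 := hyp.conj_unique hc ⟨Lat.l1 _, Lat.l1 _, rfl, rfl⟩
  obtain ⟨x, hx, h3⟩ := Lat.mem_smul.1 (h2 ▸ Lat.right_mem ((up (γ • z) : ℍ) : ℂ) 1)
  obtain ⟨a, b, rfl⟩ := Lat.mem_sp.1 hx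
  rw [inv_mul_eq_one₀ hJ, coe_up'] at h3
  have h4 := (Lat.int_indep z (γ 1 0) (γ 1 1) (17 * a) b (by
    push_cast; linear_combination h3)).1
  rw [CongruenceSubgroup.Gamma0_mem, h4]
  push_cast
  rw [show (17 : ZMod 17) = 0 from rfl, zero_mul]

theorem tf_eq (τ : ℍ) : tf τ = (XX τ ^ 2 + 94 * XX τ + 289) / 16 - YY τ := by
  rw [YY]; ring

theorem inj (hC : CosStmt) (hF : GF.FFStmt XX YY tf) : GF.InjStmt XX YY := by
  intro z w h0 h1 eX eY
  have h : ∀ f, Good f → f w = f z := fun f hf => by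
    obtain ⟨k, P, Q, h⟩ := hF.1 f hf.1
    have h2 := h w
    rw [tf_eq, eX, eY, ← tf_eq, ← h z] at h2
    exact mul_right_cancel₀ (pow_ne_zero _ (tf_ne z)) h2
  exact sep h0 h1 (h _ (good_j hC)).symm (h _ (good_A4 hC)) (h _ (good_A6 hC))

theorem sp_up (z : ℍ) : sp z (1 / 17) = (1 / 17 : ℂ) • sp (up z) 1 := by
  rw [Lat.smul_sp, coe_up']
  congr 1 <;> ring

theorem lat_A {c : ℂ} (hc : c ≠ 0) (z : ℍ) :
    A4 z = 1728 / 17 ^ 4 * (g2 (c • sp z (1 / 17)) * g2 (c • sp z 1) ^ 2 / dis (c • sp z 1)) ∧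
    A6 z = 46656 / 17 ^ 6 * (g3 (c • sp z (1 / 17)) * g3 (c • sp z 1) / dis (c • sp z 1)) := by
  have h : (1 / 17 : ℂ) ≠ 0 := by norm_num
  have hD := discriminant_ne_zero z
  have hp : (Real.pi : ℂ) ≠ 0 := by simp
  rw [sp_up, hyp.g2_smul _ hc, hyp.g2_smul _ hc, hyp.g3_smul _ hc, hyp.g3_smul _ hc,
    hyp.dis_smul _ hc, hyp.g2_smul _ h, hyp.g3_smul _ h, Eis.g2_eq, Eis.g2_eq, Eis.g3_eq,
    Eis.g3_eq, Eis.dis_eq, A4, A6]
  constructor <;> field_simp <;> ring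

theorem equiv (hC : CosStmt) (hE : EtaStmt) (hF : GF.FFStmt XX YY tf) (hS : GF.SurjStmt XX YY)
    (hq : ∀ z, YY z ^ 2 = XX z * (XX z ^ 2 + 30 * XX z + 289)) : GF.EquivStmt XX YY := by
  rintro σ z w h0 h1 ⟨c, hc, c1, c2⟩
  obtain ⟨u, eX, eY⟩ := hS.1 (σ (XX z)) (σ (YY z)) (by simpa [map_ofNat] using congrArg σ (hq z))
    fun e => hS.2 z ⟨σ.injective (by rw [e.1, map_ofNat]), σ.injective (by rw [e.2, map_ofNat])⟩
  have et : tf u = σ (tf z) := by simp [tf_eq, eX, eY, map_ofNat]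
  have h : ∀ f, Good f → f u = σ (f z) := fun f ⟨hf, d, h2, h3⟩ => by
    obtain ⟨k, P, Q, h⟩ := hF.2 f d hf h2 h3
    have h4 := congrArg σ (h z)
    have h5 : ∀ R : Polynomial ℚ, σ (Polynomial.aeval (XX z) R) = Polynomial.aeval (XX u) R :=
      fun R => by
        rw [eX]; exact (Polynomial.aeval_algHom_apply (σ : ℂ →+* ℂ).toRatAlgHom _ R).symm
    rw [map_mul, map_pow, map_add, map_mul, h5, h5, ← eY, ← h u, ← et] at h4
    exact (mul_right_cancel₀ (pow_ne_zero _ (tf_ne u)) h4).symm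
  have ej : σ (jH z) = jH w := by
    have := c1.jL
    rwa [hyp.jL_smul _ hc, hyp.jL_sp, hyp.jL_sp] at this
  obtain ⟨a1, a2⟩ := lat_A one_ne_zero z
  obtain ⟨b1, b2⟩ := lat_A hc w
  rw [one_smul, one_smul] at a1 a2
  have d1 : σ (g2 _) = _ := c1.2.2.1
  have d2 : σ (g3 _) = _ := c1.2.2.2
  have d3 : σ (g2 _) = _ := c2.2.2.1
  have d4 : σ (g3 _) = _ := c2.2.2.2
  obtain ⟨γ, hγ, rfl⟩ := sep (z := w) (w := u)
    (fun e => h0 (σ.injective (by rw [ej, e, map_zero])))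
    (fun e => h1 (σ.injective (by rw [ej, e, map_ofNat]))) (by rw [h _ (good_j hC), ej])
    (by rw [h _ (good_A4 hC), a1, b1]
        simp only [dis, map_ofNat, map_mul, map_div₀, map_pow, map_sub, d1, d2, d3])
    (by rw [h _ (good_A6 hC), a2, b2]
        simp only [dis, map_ofNat, map_mul, map_div₀, map_pow, map_sub, d1, d2, d4])
  obtain ⟨-, m1, m2, -⟩ := modl hC hE
  exact ⟨by rw [← eX, m1.inv γ hγ], by rw [← eY, m2.inv γ hγ]⟩

end Pool.Agent.Lib.MP_d6ddbd_nt.X
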