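import Pool.Agent.Lib.MP_d6ddbd_nt.X.Has
import Pool.Agent.Lib.MP_d6ddbd_nt.X.Stmt

/-!
Expansions of the basic functions, and consequences of an expansion.
-/

set_option autoImplicit false

open UpperHalfPlane Filter Topology PowerSeries
open scoped MatrixGroups
open Pool.Agent.Lib.MP_9177b7_ag.CM Pool.Agent.Lib.MP_9177b7_ag.CM.Norm
open Pool.Agent.Lib.MP_d6ddbd_nt.K
open Pool.Agent.Lib.MP_d6ddbd_nt.GF (mir coe_mir)

noncomputable section

namespace Pool.Agent.Lib.MP_d6ddbd_nt.X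

variable {F G : ℍ → ℂ} {m n N : ℕ} {k l : List ℚ}

theorem Ex.pad (H : Ex m N F k) : Ex (m + 1) N F (0 :: k) := by
  obtain ⟨φ, h1, h2⟩ := H.raise
  exact ⟨φ, h1, fun i hi => h2 i (by omega)⟩

theorem Ex.shift (H : Ex n N G l) (e : ∀ τ, qq 1 τ ^ m * F τ = qq 1 τ ^ n * G τ) : Ex m N F l := by
  obtain ⟨φ, h1, h2⟩ := H
  exact ⟨φ, hq_congr h1 e, h2⟩

theorem Ex.eq (_H : Ex m N F l) (τ : ℍ) : F τ = (qq 1 τ ^ m)⁻¹ * (qq 1 τ ^ m * F τ) := by
  have := qq_ne 1 τ
  field_simp

theorem Ex.hol (H : Ex m N F l) : Hol F := by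
  obtain ⟨φ, h1, -⟩ := id H
  have h2 := hq_hol one_pos (hq_pow (hq_X 1) m)
  refine ((h2.inv fun z _ => pow_ne_zero _ (qq_ne _ _)).mul (hq_hol one_pos h1)).congr
    fun z _ => H.eq _

theorem norm_qq (τ : ℍ) : ‖qq 1 τ‖ = Real.exp (-2 * Real.pi * τ.im) := by
  simp [qq, Function.Periodic.qParam, Complex.norm_exp]

theorem Ex.gro (H : Ex m N F l) : Gro F := by
  obtain ⟨φ, h1, -⟩ := id H
  obtain ⟨g, hg, e, -⟩ := hq_disc one_pos h1
  have hr : Real.exp (-2 * Real.pi) < 1 := Real.exp_lt_one_iff.2 (by linarith [Real.pi_pos])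
  obtain ⟨C, hC⟩ := (isCompact_closedBall (0 : ℂ) (Real.exp (-2 * Real.pi))).exists_bound_of_continuousOn
    (hg.continuousOn.mono (Metric.closedBall_subset_ball hr))
  refine ⟨C, 2 * Real.pi * m, fun τ hτ => ?_⟩
  rw [H.eq τ, e, norm_mul, norm_inv, norm_pow, norm_qq, ← Real.exp_nat_mul, ← Real.exp_neg,
    mul_comm, show -(m * (-2 * Real.pi * τ.im)) = 2 * Real.pi * m * τ.im by ring]
  refine mul_le_mul_of_nonneg_right (hC _ ?_) (Real.exp_pos _).le
  rw [mem_closedBall_zero_iff, norm_qq]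
  exact Real.exp_le_exp.2 (by nlinarith [Real.pi_pos])

theorem Ex.tendsto (H : Ex 0 (N + 1) F l) : Tendsto F atImInfty (𝓝 ((l.getD 0 0 : ℚ) : ℂ)) := by
  obtain ⟨φ, h1, h2⟩ := H
  have := hq_tendsto one_pos (F := F) (by simpa using h1)
  rwa [coeff_map, h2 0 (by omega)] at this

theorem Ex.bdd (H : Ex 0 N F l) : IsBoundedAtImInfty F := by
  obtain ⟨φ, h1, -⟩ := H
  exact hq_bdd one_pos (F := F) (by simpa using h1)

theorem qq_mir (τ : ℍ) : qq 1 (mir τ) = starRingEnd ℂ (qq 1 τ) := by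
  rw [qq, qq, coe_mir, Function.Periodic.qParam, Function.Periodic.qParam, ← Complex.exp_conj]
  congr 1
  simp [map_ofNat]

theorem Ex.mir (H : Ex m N F l) (τ : ℍ) : F (mir τ) = starRingEnd ℂ (F τ) := by
  obtain ⟨φ, h1, -⟩ := id H
  have h2 := Complex.hasSum_conj'.2 (h1 τ)
  have h3 := h1 (GF.mir τ)
  rw [show Function.Periodic.qParam 1 ((GF.mir τ : ℍ) : ℂ) = _ from qq_mir τ] at h3
  have h4 := h3.unique (by simpa using h2)
  simp only at h4
  rw [H.eq, H.eq τ, h4, qq_mir]
  simp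

theorem qq_ee (τ : ℍ) (N : ℤ) : ee (N * (τ : ℂ) / (1 : ℕ)) = qq 1 τ ^ N := by
  rw [ee, qq, Function.Periodic.qParam, ← Complex.exp_int_mul]
  congr 1
  push_cast
  ring

theorem hq_lead {φ : PowerSeries ℚ} (s : ℤ)
    (H : HQ 1 (fun τ => qq 1 τ ^ s * F τ) (φ.map (algebraMap ℚ ℂ)))
    (h : ∀ i < l.length, coeff i φ = l.getD i 0) : Lead F s l := by
  let a := φ.map (algebraMap ℚ ℂ)
  let c : LaurentSeries ℂ := HahnSeries.single (-s) 1 * (a : LaurentSeries ℂ)
  have hc : ∀ N : ℤ, c.coeff (N - s) = if N < 0 then 0 else coeff N.natAbs a := fun N => by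
    rw [← PowerSeries.coeff_coe, sub_eq_add_neg, HahnSeries.coeff_single_mul_add, one_mul]
  have hc' : ∀ i : ℕ, c.coeff (i - s) = (coeff i φ : ℚ) := fun i => by
    rw [hc, if_neg (by omega)]
    simp [a]
  have hc0 : ∀ N < -s, c.coeff N = 0 := fun N hN => by
    rw [← add_sub_cancel_right N s, hc, if_pos (by omega)]
  refine ⟨c, fun τ => ?_, fun N => ?_, hc0, fun i hi => by rw [hc', h i hi]⟩
  · have hi : Function.Injective fun i : ℕ => (i : ℤ) - s := fun i j e => by simpa using e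
    rw [← hi.hasSum_iff fun N hN => by
      rw [hc0 N (lt_of_not_ge fun e => hN ⟨(N + s).toNat, by simp only; omega⟩), zero_mul]]
    have h0 := qq_ne 1 τ
    have h1 := (H τ).mul_left (qq 1 τ ^ (-s))
    rw [← mul_assoc, ← zpow_add₀ h0, neg_add_cancel, zpow_zero, one_mul] at h1
    have e : ((fun N : ℤ => c.coeff N * ee (N * (τ : ℂ) / (1 : ℕ))) ∘ fun i : ℕ => (i : ℤ) - s) =
        fun i => qq 1 τ ^ (-s) * (coeff i (φ.map (algebraMap ℚ ℂ)) •
          Function.Periodic.qParam 1 τ ^ i) := by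
      funext i
      simp only [Function.comp_apply, hc', qq_ee, coeff_map, eq_ratCast, smul_eq_mul]
      rw [sub_eq_add_neg, zpow_add₀ h0, zpow_natCast]
      ring
    rw [e]
    exact h1
  · rcases lt_or_ge N (-s) with hN | hN
    · exact ⟨0, by simp [hc0 N hN]⟩
    · exact ⟨_, by rw [← hc' (N + s).toNat]; congr 1; omega⟩

theorem Ex.lead (H : Ex m l.length F l) : Lead F m l := by
  obtain ⟨φ, h1, h2⟩ := H
  exact hq_lead m (by simpa using h1) h2

/-! ### The basic expansions -/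

theorem ex_E2 : Ex 0 11 EisensteinSeries.E2
    [1, -24, -72, -96, -168, -144, -288, -192, -360, -312, -432] := by
  refine ⟨PowerSeries.mk fun m => if m = 0 then 1 else -24 * ArithmeticFunction.sigma 1 m,
    fun τ => ?_, ?_⟩
  · have := EisensteinSeries.hasSum_qExpansion_E2 (z := τ)
    simpa [Function.Periodic.qParam, apply_ite] using this
  · simp only [coeff_mk]
    decide +kernel

theorem ex_E4 : Ex 0 11 ModularForm.E₄
    [1, 240, 2160, 6720, 17520, 30240, 60480, 82560, 140400, 181680, 272160] := by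
  refine ⟨Kron.e4.map (Int.castRingHom ℚ), ?_, ?_⟩
  · have e : (Kron.e4.map (Int.castRingHom ℚ)).map (algebraMap ℚ ℂ) =
        Kron.e4.map (Int.castRingHom ℂ) := by ext; simp
    rw [e, Kron.map_e4]
    simpa using HQ_form ModularForm.E₄
  · simp only [coeff_map, Kron.e4, coeff_mk]
    decide +kernel

theorem ex_E6 : Ex 0 1 ModularForm.E₆ [1] := by
  refine ⟨Kron.e6.map (Int.castRingHom ℚ), ?_, ?_⟩
  · have e : (Kron.e6.map (Int.castRingHom ℚ)).map (algebraMap ℚ ℂ) =
        Kron.e6.map (Int.castRingHom ℂ) := by ext; simp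
    rw [e, Kron.map_e6]
    simpa using HQ_form ModularForm.E₆
  · simp only [coeff_map, Kron.e6, coeff_mk]
    decide +kernel

/-- The Euler product. -/
def pe (τ : ℍ) : ℂ := ∏' n : ℕ, (1 - qq 1 τ ^ (n + 1))

theorem pe_ne (τ : ℍ) : pe τ ≠ 0 := ModularForm.eta_tprod_ne_zero τ.2

theorem eta_eq (τ : ℍ) : ModularForm.eta τ = qq 24 τ * pe τ := rfl

theorem coeff_ode {K : Type} [Field K] (a s : PowerSeries K) (h0 : coeff 0 s = 0) (i : ℕ) :
    coeff i (X * derivative K a - a * s) =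
      i * coeff i a - ∑ j ∈ Finset.range i, coeff j a * coeff (i - j) s := by
  rw [map_sub, coeff_mul i a, Finset.Nat.sum_antidiagonal_eq_sum_range_succ_mk,
    Finset.sum_range_succ, Nat.sub_self, h0, mul_zero, add_zero]
  cases i with
  | zero => simp
  | succ i => rw [coeff_succ_X_mul, coeff_derivative]; push_cast; ring

theorem ode_pe : ∃ a, HQ 1 pe a ∧ coeff 0 a = 1 ∧
    HQ 1 (fun τ => pe τ * (1 / 24 * (EisensteinSeries.E2 τ - 1))) (X * derivative ℂ a) := by
  have hg := ModularForm.differentiableOn_tprod_one_sub_pow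
  set g : ℂ → ℂ := fun q => ∏' n : ℕ, (1 - q ^ (n + 1)) with hg'
  refine ⟨tay g, hq_of_disc one_pos hg fun _ => rfl, by simp [Mono.coeff_tay, hg'], ?_⟩
  rw [← Mono.tay_deriv]
  refine hq_congr (HQ_mul (hq_X 1)
    (hq_of_disc one_pos (hg.deriv Metric.isOpen_ball) fun _ => rfl)) fun τ => ?_
  have h1 := ModularForm.logDeriv_eta_eq_E2 τ
  have hq : DifferentiableAt ℂ g (qq 1 τ) :=
    hg.differentiableAt (Metric.isOpen_ball.mem_nhds (by simpa using qq_lt one_pos τ))
  have e : ModularForm.eta = fun z => Function.Periodic.qParam 24 z *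
      (g ∘ Function.Periodic.qParam 1) z := rfl
  have hd := (Function.Periodic.differentiable_qParam (h := 1)).differentiableAt (x := (τ : ℂ))
  have h2 := ModularForm.logDeriv_qParam 1 τ
  rw [e, logDeriv_mul (f := Function.Periodic.qParam 24) (g := g ∘ Function.Periodic.qParam 1)
    (τ : ℂ) (qq_ne 24 τ) (pe_ne τ)
    (Function.Periodic.differentiable_qParam (h := 24)).differentiableAt
    (DifferentiableAt.comp (τ : ℂ) (g := g) hq hd),
    logDeriv_comp (f := g) (g := Function.Periodic.qParam 1) (x := (τ : ℂ)) hq hd,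
    ModularForm.logDeriv_qParam, logDeriv_apply] at h1
  rw [logDeriv_apply, div_eq_iff (qq_ne 1 τ)] at h2
  rw [h2] at h1
  have h3 : g (qq 1 τ) ≠ 0 := pe_ne τ
  change g (qq 1 τ) * _ = _
  push_cast at h1
  field_simp at h1
  linear_combination (-1 / 576) * h1

theorem ex_pe : Ex 0 11 pe [1, -1, -1, 0, 0, 1, 0, 1, 0, 0, 0] := by
  obtain ⟨a, h1, h2, h3⟩ := ode_pe
  obtain ⟨s, h4, h5⟩ : Ex 0 11 (fun τ => 1 / 24 * (EisensteinSeries.E2 τ - 1))
      [0, -1, -3, -4, -7, -6, -12, -8, -15, -13, -18] :=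
    ((ex_E2.add (Ex.const 11 (-1))).smul (1 / 24)).congr le_rfl (by decide +kernel)
      fun τ => by push_cast; ring
  have h6 := hq_unique one_pos h3 (HQ_mul h1 (by simpa using h4))
  have h7 : coeff 0 s = 0 := h5 0 (by omega)
  have h8 : ∀ i : ℕ, (i : ℂ) * coeff i a =
      ∑ j ∈ Finset.range i, coeff j a * (coeff (i - j) s : ℚ) := fun i => by
    have := coeff_ode a (s.map (algebraMap ℚ ℂ)) (by simp [coeff_map, h7]) i
    rw [h6, sub_self, map_zero, eq_comm, sub_eq_zero] at this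
    simpa using this
  have h9 : ∀ i : ℕ, ∃ r : ℚ, coeff i a = r := fun i => by
    induction i using Nat.strong_induction_on with
    | _ i ih =>
      rcases Nat.eq_zero_or_pos i with rfl | hi
      · exact ⟨1, by simpa using h2⟩
      · choose! r hr using ih
        refine ⟨(∑ j ∈ Finset.range i, r j * coeff (i - j) s) / i, ?_⟩
        push_cast
        rw [eq_div_iff (by exact_mod_cast hi.ne'), mul_comm, h8]
        exact Finset.sum_congr rfl fun j hj => by rw [hr j (Finset.mem_range.1 hj)]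
  choose r hr using h9
  refine ⟨PowerSeries.mk r, ?_, fun i hi => ?_⟩
  · rw [show (PowerSeries.mk r).map (algebraMap ℚ ℂ) = a by ext; simp [hr]]
    simpa using h1
  · rw [coeff_mk]
    induction i using Nat.strong_induction_on with
    | _ i ih =>
      rcases Nat.eq_zero_or_pos i with rfl | hi0
      · rw [hr] at h2
        exact_mod_cast h2
      · have h10 := h8 i
        simp only [hr] at h10
        have h11 : (i : ℚ) * r i = ∑ j ∈ Finset.range i, r j * coeff (i - j) s := by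
          exact_mod_cast h10
        rw [Finset.sum_congr rfl fun j hj => by
          rw [ih j (Finset.mem_range.1 hj) (by have := Finset.mem_range.1 hj; omega),
            h5 (i - j) (by omega)]] at h11
        apply mul_left_cancel₀ (a := (i : ℚ)) (by exact_mod_cast hi0.ne')
        rw [h11]
        clear h11 h10 ih hi0
        revert i
        decide +kernel

end Pool.Agent.Lib.MP_d6ddbd_nt.X
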